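import Pool.Agent.Lib.MP_557074_an.Rec

set_option autoImplicit false
open Complex MeasureTheory Filter Topology

namespace Pool.Agent.Lib.MP_557074_an

variable {l : ℤ} {μ ω : ℂ}

/-- large coefficients -/
lemma large_coef (ν : ℂ) (e μ : ℂ) (hμ : μ ≠ 0) (c0 : ℂ) :
    ∃ n0 : ℕ, ∀ n : ℕ, n0 ≤ n → 3 ≤ ‖(ν + (n : ℂ) - c0 + e / (ν + n)) / μ‖ := by
  obtain ⟨n0, hn0⟩ := exists_nat_gt (3 * ‖μ‖ + ‖ν‖ + ‖c0‖ + ‖e‖ + 1)
  refine ⟨n0, fun n hn => ?_⟩
  have hn' : (n0 : ℝ) ≤ n := by exact_mod_cast hn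
  have hμ0 : 0 < ‖μ‖ := norm_pos_iff.mpr hμ
  rw [norm_div, le_div_iff₀ hμ0]
  have h1 : 1 ≤ ‖ν + (n : ℂ)‖ := by
    have h2 := norm_sub_norm_le ((n : ℂ)) (-ν)
    rw [sub_neg_eq_add, norm_neg, Complex.norm_natCast, add_comm (n : ℂ) ν] at h2
    have := norm_nonneg μ
    have := norm_nonneg c0
    have := norm_nonneg e
    linarith
  have h3 : ‖e / (ν + n)‖ ≤ ‖e‖ := by
    rw [norm_div]
    exact div_le_self (norm_nonneg _) h1
  have h4 : (n : ℝ) ≤ ‖ν + (n : ℂ) - c0 + e / (ν + n)‖ + ‖ν‖ + ‖c0‖ + ‖e / (ν + n)‖ := by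
    calc (n : ℝ) = ‖(n : ℂ)‖ := (Complex.norm_natCast n).symm
      _ = ‖(ν + (n : ℂ) - c0 + e / (ν + n)) + (-ν) + c0 + (-(e / (ν + n)))‖ := by
          congr 1; ring
      _ ≤ ‖(ν + (n : ℂ) - c0 + e / (ν + n)) + (-ν) + c0‖ + ‖-(e / (ν + n))‖ := norm_add_le _ _
      _ ≤ ‖(ν + (n : ℂ) - c0 + e / (ν + n)) + (-ν)‖ + ‖c0‖ + ‖-(e / (ν + n))‖ := by
          gcongr; exact norm_add_le _ _
      _ ≤ ‖ν + (n : ℂ) - c0 + e / (ν + n)‖ + ‖-ν‖ + ‖c0‖ + ‖-(e / (ν + n))‖ := by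
          gcongr; exact norm_add_le _ _
      _ = _ := by rw [norm_neg, norm_neg]
  linarith

/-- a combination of solutions -/
lemma comb_facts {κ : ℂ} {u1 v1 u2 v2 : ℝ → ℂ} (h1 : IsLin l μ κ u1 v1)
    (h2 : IsLin l μ κ u2 v2) (N : ℂ) :
    ∃ α β : ℂ, (α ≠ 0 ∨ β ≠ 0) ∧
      cf (fun τ => α * v1 τ + β * v2 τ) N = 0 := by
  obtain ⟨α, β, h3, h4⟩ := exists_comb (cf v1 N) (cf v2 N)
  refine ⟨α, β, h3, ?_⟩
  rw [cf_comb, h4]
  · exact continuous_iff_continuousAt.mpr fun τ => (h1.dv τ).continuousAt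
  · exact continuous_iff_continuousAt.mpr fun τ => (h2.dv τ).continuousAt

/-- existence of a nonzero solution with a prescribed vanishing coefficient -/
lemma exists_sol (l : ℤ) (μ κ N : ℂ) : ∃ u v : ℝ → ℂ, IsLin l μ κ u v ∧ (u 0 ≠ 0 ∨ v 0 ≠ 0) ∧
    cf v N = 0 := by
  obtain ⟨u1, v1, h1, a1, a2⟩ := lin_exist l μ κ 1 0
  obtain ⟨u2, v2, h2, b1, b2⟩ := lin_exist l μ κ 0 1
  obtain ⟨α, β, h3, h4⟩ := comb_facts h1 h2 N
  refine ⟨_, _, h1.comb h2 α β, ?_, h4⟩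
  simp only [a1, a2, b1, b2, mul_one, mul_zero, add_zero, zero_add]
  exact h3

/-- the multiplier is `1` -/
lemma multiplier_one (hμ : μ ≠ 0) {κ c : ℂ} (hc : c ≠ 0)
    (hall : ∀ u v : ℝ → ℂ, IsLin l μ κ u v →
      ∀ τ, u (τ + 2 * Real.pi) = c * u τ ∧ v (τ + 2 * Real.pi) = c * v τ) : c = 1 := by
  by_contra hc1
  obtain ⟨ν, hν⟩ : ∃ ν : ℂ, exp (2 * Real.pi * I * ν) = c := by
    refine ⟨log c / (2 * Real.pi * I), ?_⟩
    rw [mul_div_cancel₀ _ two_pi_I_ne_zero, exp_log hc]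
  have hN0 : ∀ n : ℤ, ν + n ≠ 0 := by
    intro n h0
    apply hc1
    rw [← hν]
    have : ν = ((-n : ℤ) : ℂ) := by
      push_cast
      linear_combination h0
    rw [this]
    have : 2 * (Real.pi : ℂ) * I * ((-n : ℤ) : ℂ) = ((-n : ℤ) : ℂ) * (2 * Real.pi * I) := by ring
    rw [this, exp_int_mul_two_pi_mul_I]
  obtain ⟨n0, hn0⟩ := large_coef ν (-(κ ^ 2)) μ hμ l
  obtain ⟨u, v, h, hne, h0⟩ := exists_sol l μ κ (ν + (n0 : ℂ))
  have hper := hall u v h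
  have cv : Continuous v := continuous_iff_continuousAt.mpr fun τ => (h.dv τ).continuousAt
  have cu : Continuous u := continuous_iff_continuousAt.mpr fun τ => (h.du τ).continuousAt
  -- the recurrence
  have hrec : ∀ n : ℤ, cf v (ν + ((n + 1 : ℤ) : ℂ)) + cf v (ν + ((n - 1 : ℤ) : ℂ)) =
      ((ν + (n : ℂ) - l + -(κ ^ 2) / (ν + n)) / μ) * cf v (ν + n) := by
    intro n
    obtain ⟨e1, e2⟩ := coef_rec h hν hper n
    have hN := hN0 n
    field_simp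
    linear_combination (-(ν + n)) * e2 - κ * e1
  -- decay gives the next zero
  obtain ⟨C, hC⟩ := cf_bound v ν
  have hdec := decay (a := fun n : ℕ => (ν + (((n0 + n : ℕ) : ℤ) : ℂ) - l +
    -(κ ^ 2) / (ν + (((n0 + n : ℕ) : ℤ) : ℂ))) / μ) (w := fun n : ℕ => cf v (ν + (((n0 + n : ℕ) : ℤ) : ℂ)))
    (n0 := 0) (C := C)
    (by
      intro n _
      have h1 := hrec ((n0 + (n + 1) : ℕ) : ℤ)
      have e1 : (((n0 + (n + 1) : ℕ) : ℤ) + 1) = ((n0 + (n + 2) : ℕ) : ℤ) := by push_cast; ring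
      have e2 : (((n0 + (n + 1) : ℕ) : ℤ) - 1) = ((n0 + n : ℕ) : ℤ) := by push_cast; ring
      rw [e1, e2] at h1
      linear_combination h1)
    (by
      intro n _
      have := hn0 (n0 + (n + 1)) (by omega)
      simpa using this)
    (fun n => hC _) 0 le_rfl
  have hz0 : cf v (ν + ((n0 : ℤ) : ℂ)) = 0 := by
    simpa using h0
  have hz1 : cf v (ν + (((n0 : ℤ) + 1 : ℤ) : ℂ)) = 0 := by
    have e0 : ((n0 + 0 : ℕ) : ℤ) = (n0 : ℤ) := by push_cast; ring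
    have e1 : ((n0 + (0 + 1) : ℕ) : ℤ) = (n0 : ℤ) + 1 := by push_cast; ring
    simp only [e0, e1, hz0, norm_zero, mul_zero] at hdec
    exact norm_le_zero_iff.mp hdec
  have hall0 : ∀ n : ℤ, cf v (ν + n) = 0 := fun n =>
    two_sided (s := fun n : ℤ => cf v (ν + (n : ℂ))) hrec hz0 hz1 n
  have hallu : ∀ n : ℤ, cf u (ν + n) = 0 := by
    intro n
    have e1 := (coef_rec h hν hper n).1
    rw [hall0 n, mul_zero] at e1
    exact (mul_eq_zero.mp e1).resolve_left (hN0 n)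
  have z1 := cf_complete cv hν (fun τ => (hper τ).2) hall0 0
  have z2 := cf_complete cu hν (fun τ => (hper τ).1) hallu 0
  rcases hne with h1 | h1
  · exact h1 z2
  · exact h1 z1

/-- zeros propagate upwards from `0, 1` -/
lemma up_zero {s : ℤ → ℂ} {a : ℤ → ℂ} (h : ∀ n : ℤ, n ≠ 0 → s (n + 1) + s (n - 1) = a n * s n)
    (h0 : s 0 = 0) (h1 : s 1 = 0) (k : ℕ) : s k = 0 ∧ s (k + 1) = 0 := by
  induction k with
  | zero => simpa using ⟨h0, h1⟩
  | succ k ih =>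
    have h2 := h (k + 1) (by omega)
    rw [show (k : ℤ) + 1 - 1 = k by ring, ih.1, ih.2, mul_zero, add_zero] at h2
    push_cast
    exact ⟨ih.2, h2⟩

lemma down_zero {s : ℤ → ℂ} {a : ℤ → ℂ} (h : ∀ n : ℤ, n ≠ 0 → s (n + 1) + s (n - 1) = a n * s n)
    (h0 : s 0 = 0) (h1 : s (-1) = 0) (k : ℕ) : s (-k) = 0 ∧ s (-(k + 1)) = 0 := by
  have := up_zero (s := fun n => s (-n)) (a := fun n => a (-n))
    (by
      intro n hn
      have h2 := h (-n) (by omega)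
      rw [show -n + 1 = -(n - 1) by ring, show -n - 1 = -(n + 1) by ring] at h2
      rw [add_comm]; exact h2) (by simpa using h0) h1 k
  exact this

theorem bounded_wseq (hμ : μ ≠ 0) (hω : ω ≠ 0) (hM : MonodromyIsId l μ ω) :
    ∃ C : ℝ, ∀ n, ‖wseq l.natAbs (1 / (4 * ω ^ 2)) μ n‖ ≤ C := by
  obtain ⟨κ, hκ⟩ : ∃ κ, κ = 1 / (2 * I * ω) := ⟨_, rfl⟩
  have hκ0 : κ ≠ 0 := by
    rw [hκ]
    exact one_div_ne_zero (mul_ne_zero (mul_ne_zero two_ne_zero I_ne_zero) hω)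
  have hκ2 : -(κ ^ 2) = 1 / (4 * ω ^ 2) := by
    rw [hκ, div_pow, mul_pow, mul_pow, I_sq]
    field_simp
    norm_num
  obtain ⟨c, hc0, hall⟩ := exists_multiplier hM
  rw [← hκ] at hall
  have hc := multiplier_one hμ hc0 hall
  subst hc
  have hν : exp (2 * Real.pi * I * (0 : ℂ)) = 1 := by rw [mul_zero, exp_zero]
  -- facts for all solutions
  have facts : ∀ u v : ℝ → ℂ, IsLin l μ κ u v → (u 0 ≠ 0 ∨ v 0 ≠ 0) →
      cf v ((0 : ℤ) : ℂ) = 0 ∧ (∀ n : ℤ, n ≠ 0 → cf v ((n + 1 : ℤ) : ℂ) + cf v ((n - 1 : ℤ) : ℂ) =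
        (((n : ℂ) - l + 1 / (4 * ω ^ 2) / n) / μ) * cf v (n : ℂ)) ∧
      (cf v ((1 : ℤ) : ℂ) ≠ 0 ∨ cf v ((-1 : ℤ) : ℂ) ≠ 0) := by
    intro u v h hne
    have hper := hall u v h
    have cv : Continuous v := continuous_iff_continuousAt.mpr fun τ => (h.dv τ).continuousAt
    have cu : Continuous u := continuous_iff_continuousAt.mpr fun τ => (h.du τ).continuousAt
    have hr : ∀ n : ℤ, (n : ℂ) * cf u n = κ * cf v n ∧
        (n : ℂ) * cf v n = κ * cf u n + l * cf v n +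
          μ * (cf v ((n - 1 : ℤ) : ℂ) + cf v ((n + 1 : ℤ) : ℂ)) := by
      intro n
      have := coef_rec h hν hper n
      simpa only [zero_add] using this
    have hv0 : cf v ((0 : ℤ) : ℂ) = 0 := by
      have h1 := (hr 0).1
      rw [Int.cast_zero, zero_mul] at h1
      rw [Int.cast_zero]
      exact (mul_eq_zero.mp h1.symm).resolve_left hκ0
    have hrec : ∀ n : ℤ, n ≠ 0 → cf v ((n + 1 : ℤ) : ℂ) + cf v ((n - 1 : ℤ) : ℂ) =
        (((n : ℂ) - l + 1 / (4 * ω ^ 2) / n) / μ) * cf v (n : ℂ) := by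
      intro n hn
      obtain ⟨e1, e2⟩ := hr n
      have hn' : (n : ℂ) ≠ 0 := by exact_mod_cast hn
      rw [← hκ2]
      field_simp
      linear_combination (-(n : ℂ)) * e2 - κ * e1
    refine ⟨hv0, hrec, ?_⟩
    by_contra hcon
    have hcon' : cf v ((1 : ℤ) : ℂ) = 0 ∧ cf v ((-1 : ℤ) : ℂ) = 0 := by
      constructor
      · by_contra h1; exact hcon (Or.inl h1)
      · by_contra h1; exact hcon (Or.inr h1)
    have hz : ∀ n : ℤ, cf v (n : ℂ) = 0 := by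
      intro n
      rcases le_total 0 n with h1 | h1
      · have := (up_zero (s := fun n : ℤ => cf v (n : ℂ)) hrec hv0 hcon'.1 n.toNat).1
        simp only [Int.toNat_of_nonneg h1] at this
        exact this
      · have := (down_zero (s := fun n : ℤ => cf v (n : ℂ)) hrec hv0 hcon'.2 (-n).toNat).1
        simp only [Int.toNat_of_nonneg (by omega : 0 ≤ -n), neg_neg] at this
        exact this
    have hzu : ∀ n : ℤ, cf u (n : ℂ) = 0 := by
      intro n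
      obtain ⟨e1, e2⟩ := hr n
      by_cases hn : n = 0
      · subst hn
        rw [hz, hz, hz, Int.cast_zero] at e2
        rw [Int.cast_zero]
        have : κ * cf u 0 = 0 := by linear_combination -e2
        exact (mul_eq_zero.mp this).resolve_left hκ0
      · rw [hz n, mul_zero] at e1
        exact (mul_eq_zero.mp e1).resolve_left (by exact_mod_cast hn)
    have z1 := cf_complete cv hν (fun τ => (hper τ).2) (fun n => by rw [zero_add]; exact hz n) 0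
    have z2 := cf_complete cu hν (fun τ => (hper τ).1) (fun n => by rw [zero_add]; exact hzu n) 0
    rcases hne with h1 | h1
    · exact h1 z2
    · exact h1 z1
  rcases le_or_gt 0 l with hl | hl
  · -- use the negative coefficients
    obtain ⟨u, v, h, hne, h1⟩ := exists_sol l μ κ ((1 : ℤ) : ℂ)
    obtain ⟨f1, f2, f3⟩ := facts u v h hne
    have hm1 : cf v ((-1 : ℤ) : ℂ) ≠ 0 := f3.resolve_left (fun h => h h1)
    obtain ⟨C, hC⟩ := cf_bound v 0
    have hL : ((l.natAbs : ℕ) : ℂ) = (l : ℂ) := by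
      have : ((l.natAbs : ℕ) : ℤ) = l := Int.natAbs_of_nonneg hl
      rw [← Int.cast_natCast, this]
    have hw := wseq_eq (L := l.natAbs) (e := 1 / (4 * ω ^ 2)) (μ := μ)
      (t := fun m : ℕ => (-1) ^ (m + 1) * cf v ((-(m : ℤ) : ℤ) : ℂ) / cf v ((-1 : ℤ) : ℂ))
      (by simp only [CharP.cast_eq_zero, neg_zero]; rw [f1]; simp)
      (by
        simp only [Nat.cast_one]
        rw [show (-1 : ℂ) ^ (1 + 1) = 1 by norm_num, one_mul, div_self hm1])
      (by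
        intro n
        have h2 := f2 (-((n : ℤ) + 1)) (by omega)
        have e1 : -((n : ℤ) + 1) + 1 = -(n : ℤ) := by ring
        have e2 : -((n : ℤ) + 1) - 1 = -((n + 2 : ℕ) : ℤ) := by push_cast; ring
        have e3 : -((n : ℤ) + 1) = -((n + 1 : ℕ) : ℤ) := by push_cast; ring
        rw [e1, e2, e3] at h2
        have h3 : cf v ((-((n + 2 : ℕ) : ℤ) : ℤ) : ℂ) =
            ((((-((n + 1 : ℕ) : ℤ) : ℤ) : ℂ) - l + 1 / (4 * ω ^ 2) / ((-((n + 1 : ℕ) : ℤ) : ℤ) : ℂ)) / μ) *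
              cf v ((-((n + 1 : ℕ) : ℤ) : ℤ) : ℂ) - cf v ((-(n : ℤ) : ℤ) : ℂ) := by
          linear_combination h2
        have hn1 : ((n + 1 : ℕ) : ℂ) ≠ 0 := Nat.cast_ne_zero.mpr (Nat.succ_ne_zero n)
        have h4 : (((-((n + 1 : ℕ) : ℤ) : ℤ) : ℂ) - l + 1 / (4 * ω ^ 2) / ((-((n + 1 : ℕ) : ℤ) : ℤ) : ℂ)) =
            -(((n + 1 : ℕ) : ℂ) + l.natAbs + 1 / (4 * ω ^ 2) / ((n + 1 : ℕ) : ℂ)) := by
          rw [hL, Int.cast_neg, Int.cast_natCast, div_neg]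
          ring
        rw [h4] at h3
        rw [h3]
        have p1 : (-1 : ℂ) ^ (n + 2 + 1) = -(-1) ^ n := by ring
        have p2 : (-1 : ℂ) ^ (n + 1 + 1) = (-1) ^ n := by ring
        have p3 : (-1 : ℂ) ^ (n + 1) = -(-1) ^ n := by ring
        rw [p1, p2, p3]
        ring)
    refine ⟨C / ‖cf v ((-1 : ℤ) : ℂ)‖, fun n => ?_⟩
    rw [hw n]
    simp only [norm_div, norm_mul, norm_pow, norm_neg, norm_one, one_pow, one_mul]
    gcongr
    have := hC (-(n : ℤ))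
    rwa [zero_add] at this
  · -- use the positive coefficients
    obtain ⟨u, v, h, hne, h1⟩ := exists_sol l μ κ ((-1 : ℤ) : ℂ)
    obtain ⟨f1, f2, f3⟩ := facts u v h hne
    have hp1 : cf v ((1 : ℤ) : ℂ) ≠ 0 := f3.resolve_right (fun h => h h1)
    obtain ⟨C, hC⟩ := cf_bound v 0
    have hL : ((l.natAbs : ℕ) : ℂ) = -(l : ℂ) := by
      have : ((l.natAbs : ℕ) : ℤ) = -l := by omega
      rw [← Int.cast_natCast, this, Int.cast_neg]
    have hw := wseq_eq (L := l.natAbs) (e := 1 / (4 * ω ^ 2)) (μ := μ)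
      (t := fun m : ℕ => cf v (((m : ℕ) : ℤ) : ℂ) / cf v ((1 : ℤ) : ℂ))
      (by simp only [CharP.cast_eq_zero]; rw [f1]; simp)
      (by simp only [Nat.cast_one]; exact div_self hp1)
      (by
        intro n
        have h2 := f2 ((n : ℤ) + 1) (by omega)
        have e1 : (n : ℤ) + 1 + 1 = ((n + 2 : ℕ) : ℤ) := by push_cast; ring
        have e2 : (n : ℤ) + 1 - 1 = (n : ℤ) := by ring
        have e3 : (n : ℤ) + 1 = ((n + 1 : ℕ) : ℤ) := by push_cast; ring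
        rw [e1, e2, e3] at h2
        have h3 : cf v (((n + 2 : ℕ) : ℤ) : ℂ) =
            (((((n + 1 : ℕ) : ℤ) : ℂ) - l + 1 / (4 * ω ^ 2) / (((n + 1 : ℕ) : ℤ) : ℂ)) / μ) *
              cf v (((n + 1 : ℕ) : ℤ) : ℂ) - cf v (((n : ℕ) : ℤ) : ℂ) := by
          linear_combination h2
        have h4 : ((((n + 1 : ℕ) : ℤ) : ℂ) - l + 1 / (4 * ω ^ 2) / (((n + 1 : ℕ) : ℤ) : ℂ)) =
            (((n + 1 : ℕ) : ℂ) + l.natAbs + 1 / (4 * ω ^ 2) / ((n + 1 : ℕ) : ℂ)) := by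
          rw [hL, Int.cast_natCast]
          ring
        rw [h4] at h3
        rw [h3]
        ring)
    refine ⟨C / ‖cf v ((1 : ℤ) : ℂ)‖, fun n => ?_⟩
    rw [hw n]
    simp only [norm_div]
    gcongr
    have := hC (n : ℤ)
    rwa [zero_add] at this

end Pool.Agent.Lib.MP_557074_an
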