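import Mathlib

set_option autoImplicit false
open Complex

namespace Pool.Agent.Lib.MP_557074_an

/-- `Φ = v / u`, a path in the Riemann sphere with homogeneous coordinates `u, v`, is a solution
along the unit circle `z = exp (i τ)` of the Riccati equation
`dΦ/dz = (1/z) ((l + μ (z + 1/z)) Φ - (Φ^2 - 1) / (2 i ω))`. -/
def IsSolution (l : ℤ) (μ ω : ℂ) (u v : ℝ → ℂ) : Prop :=
  Differentiable ℝ u ∧ Differentiable ℝ v ∧ (∀ τ, u τ ≠ 0 ∨ v τ ≠ 0) ∧
  ∀ τ : ℝ, deriv v τ * u τ - v τ * deriv u τ =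
    I * ((l + μ * (exp (I * τ) + (exp (I * τ))⁻¹)) * (v τ * u τ) -
      (v τ ^ 2 - u τ ^ 2) / (2 * I * ω))

/-- The monodromy along the unit circle is the identity: every solution returns to its initial
value in the Riemann sphere after one turn. -/
def MonodromyIsId (l : ℤ) (μ ω : ℂ) : Prop :=
  ∀ u v : ℝ → ℂ, IsSolution l μ ω u v → v (2 * Real.pi) * u 0 = u (2 * Real.pi) * v 0

/-- The set `C_l`. -/
def Cset (l : ℤ) : Set (ℂ × ℂ) := {p | p.1 ≠ 0 ∧ p.2 ≠ 0 ∧ MonodromyIsId l p.1 p.2}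

end Pool.Agent.Lib.MP_557074_an
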