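import Pool.Agent.Lib.MP_557074_an.Local

set_option autoImplicit false
open Complex Filter Topology

namespace Pool.Agent.Lib.MP_557074_an

/-- **The projection to `ω` is locally injective on `C_l` near real points.** -/
theorem local_inj (l : ℤ) {μ0 ω0 : ℝ} (hμ0 : μ0 ≠ 0) (hω0 : ω0 ≠ 0) :
    ∃ r > 0, ∀ μ μ' ω : ℂ, ‖ω - ω0‖ < r → ‖μ - μ0‖ < r → ‖μ' - μ0‖ < r →
      (μ, ω) ∈ Cset l → (μ', ω) ∈ Cset l → μ = μ' := by
  have he0 : (0:ℝ) ≤ 1 / (4 * ω0 ^ 2) := by positivity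
  obtain ⟨r1, hr1, h1⟩ := local_inj_seq l.natAbs he0 hμ0
  have hω0' : (ω0 : ℂ) ≠ 0 := by exact_mod_cast hω0
  have hcont : ContinuousAt (fun ω : ℂ => 1 / (4 * ω ^ 2)) (ω0 : ℂ) := by
    apply ContinuousAt.div continuousAt_const
    · fun_prop
    · exact mul_ne_zero (by norm_num) (pow_ne_zero _ hω0')
  obtain ⟨r2, hr2, h2⟩ := Metric.continuousAt_iff.mp hcont r1 hr1
  refine ⟨min r1 r2, lt_min hr1 hr2, ?_⟩
  intro μ μ' ω hω hμ hμ' hC hC'
  have h3 : ‖1 / (4 * ω ^ 2) - ((1 / (4 * ω0 ^ 2) : ℝ) : ℂ)‖ < r1 := by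
    have := h2 (x := ω) (by rw [dist_eq_norm]; exact lt_of_lt_of_le hω (min_le_right _ _))
    rw [dist_eq_norm] at this
    push_cast
    exact this
  exact h1 (1 / (4 * ω ^ 2)) μ μ' h3 (lt_of_lt_of_le hμ (min_le_left _ _))
    (lt_of_lt_of_le hμ' (min_le_left _ _)) (bounded_wseq hC.1 hC.2.1 hC.2.2)
    (bounded_wseq hC'.1 hC'.2.1 hC'.2.2)

/-- An analytic function which is injective near a point has nonzero derivative there. -/
theorem deriv_ne_zero_of_inj {f : ℂ → ℂ} (hf : AnalyticAt ℂ f 0) {U : Set ℂ} (hU : U ∈ 𝓝 (0:ℂ))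
    (hinj : Set.InjOn f U) : deriv f 0 ≠ 0 := by
  have hfc : AnalyticAt ℂ (fun z => f z - f 0) 0 := hf.sub analyticAt_const
  -- not identically zero
  have hne : ¬ ∀ᶠ z in 𝓝 (0:ℂ), f z - f 0 = 0 := by
    intro h
    have h1 : ∀ᶠ z in 𝓝 (0:ℂ), z ∈ U := hU
    obtain ⟨ε, hε, hball⟩ := Metric.eventually_nhds_iff_ball.mp (h.and h1)
    have hz : ((ε / 2 : ℝ) : ℂ) ∈ Metric.ball (0:ℂ) ε := by
      rw [mem_ball_zero_iff, Complex.norm_real, Real.norm_eq_abs, abs_of_pos (by linarith)]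
      linarith
    have h0 : (0:ℂ) ∈ Metric.ball (0:ℂ) ε := Metric.mem_ball_self hε
    have h2 := hball _ hz
    have h3 := hinj h2.2 (hball _ h0).2 (sub_eq_zero.mp h2.1)
    have : (ε / 2 : ℝ) = 0 := by exact_mod_cast h3
    linarith
  obtain ⟨n, g, hg, hg0, hfg⟩ := (hfc.exists_eventuallyEq_pow_smul_nonzero_iff).mpr hne
  simp only [sub_zero, smul_eq_mul] at hfg
  -- the order is positive
  have hn0 : n ≠ 0 := by
    rintro rfl
    have := hfg.self_of_nhds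
    simp only [pow_zero, one_mul, sub_self] at this
    exact hg0 this.symm
  -- an `n`-th root of `g`
  obtain ⟨c, hc⟩ : ∃ c : ℂ, c ^ n = g 0 := IsAlgClosed.exists_pow_nat_eq (g 0) (Nat.pos_of_ne_zero hn0)
  have hc0 : c ≠ 0 := by
    rintro rfl
    rw [zero_pow hn0] at hc
    exact hg0 hc.symm
  let q : ℂ → ℂ := fun z => c * exp (log (g z / g 0) / n)
  have hqa : AnalyticAt ℂ q 0 := by
    have h1 : AnalyticAt ℂ (fun z => g z / g 0) 0 := hg.div analyticAt_const hg0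
    have h2 : AnalyticAt ℂ (fun z => log (g z / g 0)) 0 := by
      apply h1.clog
      simp only [div_self hg0]
      exact one_mem_slitPlane
    have h3 : AnalyticAt ℂ (fun z => log (g z / g 0) / n) 0 :=
      h2.div analyticAt_const (Nat.cast_ne_zero.mpr hn0)
    exact analyticAt_const.mul h3.cexp
  have hq0 : q 0 = c := by simp [q, div_self hg0]
  have hqn : ∀ᶠ z in 𝓝 (0:ℂ), q z ^ n = g z := by
    have h1 : ∀ᶠ z in 𝓝 (0:ℂ), g z ≠ 0 := hg.continuousAt.eventually_ne hg0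
    filter_upwards [h1] with z hz
    simp only [q]
    rw [mul_pow, hc, ← exp_nat_mul, mul_div_cancel₀ _ (Nat.cast_ne_zero.mpr hn0),
      exp_log (div_ne_zero hz hg0), mul_div_cancel₀ _ hg0]
  let h : ℂ → ℂ := fun z => z * q z
  have hha : AnalyticAt ℂ h 0 := analyticAt_id.mul hqa
  have hhd : HasStrictDerivAt h c 0 := by
    have h1 := hha.hasStrictDerivAt
    have h2 : deriv h 0 = c := by
      have h3 : HasDerivAt h (1 * q 0 + 0 * deriv q 0) 0 :=
        (hasDerivAt_id (0:ℂ)).fun_mul hqa.differentiableAt.hasDerivAt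
      rw [h3.deriv, hq0]; ring
    rwa [h2] at h1
  have hfh : ∀ᶠ z in 𝓝 (0:ℂ), f z - f 0 = h z ^ n := by
    filter_upwards [hfg, hqn] with z h1 h2
    have h3 : h z = z * q z := rfl
    rw [h3, mul_pow z (q z) n, h2, h1]
  -- `h` is open at `0`
  have hmap := hhd.map_nhds_eq hc0
  have hh0 : h 0 = 0 := by simp [h]
  rw [hh0] at hmap
  have hV : {z | z ∈ U ∧ f z - f 0 = h z ^ n} ∈ 𝓝 (0:ℂ) := Filter.inter_mem hU hfh
  have himg : h '' {z | z ∈ U ∧ f z - f 0 = h z ^ n} ∈ 𝓝 (0:ℂ) := by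
    rw [← hmap]
    exact Filter.image_mem_map hV
  by_cases hn1 : n = 1
  · -- order one
    subst hn1
    have h1 : HasDerivAt (fun z => f z - f 0) c 0 := by
      have h2 : HasDerivAt h c 0 := hhd.hasDerivAt
      apply h2.congr_of_eventuallyEq
      filter_upwards [hfh] with z hz
      rw [hz, pow_one]
    have h3 : HasDerivAt f c 0 := by
      have := h1.add_const (f 0)
      simpa using this
    rw [h3.deriv]
    exact hc0
  · -- higher order contradicts injectivity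
    exfalso
    obtain ⟨ε, hε, hball⟩ := Metric.mem_nhds_iff.mp himg
    have hn2 : 2 ≤ n := by omega
    let ζ : ℂ := exp (2 * Real.pi * I / n)
    have hζprim : IsPrimitiveRoot ζ n := Complex.isPrimitiveRoot_exp n hn0
    have hζn : ζ ^ n = 1 := hζprim.pow_eq_one
    have hζ1 : ζ ≠ 1 := hζprim.ne_one (by omega)
    have hζnorm : ‖ζ‖ = 1 := Complex.norm_eq_one_of_pow_eq_one hζn hn0
    have ht : ((ε / 2 : ℝ) : ℂ) ∈ Metric.ball (0:ℂ) ε := by
      rw [mem_ball_zero_iff, Complex.norm_real, Real.norm_eq_abs, abs_of_pos (by linarith)]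
      linarith
    have ht' : ζ * ((ε / 2 : ℝ) : ℂ) ∈ Metric.ball (0:ℂ) ε := by
      rw [mem_ball_zero_iff, norm_mul, hζnorm, one_mul, Complex.norm_real, Real.norm_eq_abs,
        abs_of_pos (by linarith)]
      linarith
    obtain ⟨z1, ⟨hz1U, hz1⟩, e1⟩ := hball ht
    obtain ⟨z2, ⟨hz2U, hz2⟩, e2⟩ := hball ht'
    have h3 : f z1 = f z2 := by
      have : f z1 - f 0 = f z2 - f 0 := by
        rw [hz1, hz2, e1, e2, mul_pow, hζn, one_mul]
      linear_combination this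
    have h4 := hinj hz1U hz2U h3
    rw [h4, e2] at e1
    have h5 : (ζ - 1) * ((ε / 2 : ℝ) : ℂ) = 0 := by linear_combination e1
    rcases mul_eq_zero.mp h5 with h6 | h6
    · exact hζ1 (sub_eq_zero.mp h6)
    · have : (ε / 2 : ℝ) = 0 := by exact_mod_cast h6
      linarith

/-- **No real critical points.** -/
theorem no_real_critical (l : ℤ) (m w : ℂ → ℂ) (hm : AnalyticAt ℂ m 0) (hw : AnalyticAt ℂ w 0)
    (hC : ∀ᶠ s in 𝓝 (0:ℂ), (m s, w s) ∈ Cset l)
    (hinj : ∃ U ∈ 𝓝 (0:ℂ), Set.InjOn (fun s => (m s, w s)) U)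
    (hmr : (m 0).im = 0) (hwr : (w 0).im = 0) : deriv w 0 ≠ 0 := by
  obtain ⟨U, hU, hinj⟩ := hinj
  have h0 := hC.self_of_nhds
  obtain ⟨μ0, hμ0⟩ : ∃ μ0 : ℝ, m 0 = μ0 := ⟨(m 0).re, by
    apply Complex.ext <;> simp [hmr]⟩
  obtain ⟨ω0, hω0⟩ : ∃ ω0 : ℝ, w 0 = ω0 := ⟨(w 0).re, by
    apply Complex.ext <;> simp [hwr]⟩
  have hμne : μ0 ≠ 0 := by
    rintro rfl
    exact h0.1 (by simp [hμ0])
  have hωne : ω0 ≠ 0 := by
    rintro rfl
    exact h0.2.1 (by simp [hω0])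
  obtain ⟨r, hr, hloc⟩ := local_inj l hμne hωne
  have hmc : ∀ᶠ s in 𝓝 (0:ℂ), ‖m s - μ0‖ < r := by
    have := Metric.tendsto_nhds.mp hm.continuousAt r hr
    filter_upwards [this] with s hs
    rwa [dist_eq_norm, hμ0] at hs
  have hwc : ∀ᶠ s in 𝓝 (0:ℂ), ‖w s - ω0‖ < r := by
    have := Metric.tendsto_nhds.mp hw.continuousAt r hr
    filter_upwards [this] with s hs
    rwa [dist_eq_norm, hω0] at hs
  have hV : {s | s ∈ U ∧ (m s, w s) ∈ Cset l ∧ ‖m s - μ0‖ < r ∧ ‖w s - ω0‖ < r} ∈ 𝓝 (0:ℂ) := by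
    filter_upwards [hU, hC, hmc, hwc] with s a1 a2 a3 a4
    exact ⟨a1, a2, a3, a4⟩
  apply deriv_ne_zero_of_inj hw hV
  rintro s ⟨a1, a2, a3, a4⟩ s' ⟨b1, b2, b3, b4⟩ hss
  have hss' : w s = w s' := hss
  have hmm : m s = m s' := hloc (m s) (m s') (w s) a4 a3 b3 a2 (by rw [hss']; exact b2)
  apply hinj a1 b1
  simp only [hmm, hss']

end Pool.Agent.Lib.MP_557074_an
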