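import Pool.Agent.Lib.MP_557074_an.System

set_option autoImplicit false
open Complex MeasureTheory Filter Topology

namespace Pool.Agent.Lib.MP_557074_an

/-- A continuous periodic function with vanishing Fourier coefficients vanishes. -/
lemma fourier_complete {g : ℝ → ℂ} (hg : Continuous g) (hp : ∀ τ, g (τ + 2 * Real.pi) = g τ)
    (h0 : ∀ n : ℤ, ∫ τ in (0:ℝ)..(2 * Real.pi), g τ * exp (-(I * n * τ)) = 0) (τ : ℝ) :
    g τ = 0 := by
  have hT : Fact (0 < 2 * Real.pi) := ⟨by positivity⟩
  have hper : Function.Periodic g (2 * Real.pi) := hp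
  let G : C(AddCircle (2 * Real.pi), ℂ) := ⟨hper.lift, by
    exact continuous_quot_lift _ hg⟩
  have hG : ∀ x : ℝ, G (x : AddCircle (2 * Real.pi)) = g x := fun x => rfl
  have hcoef : ∀ n : ℤ, fourierCoeff G n = 0 := by
    intro n
    rw [fourierCoeff_eq_intervalIntegral _ n 0]
    have e : ∫ x in (0:ℝ)..(0 + 2 * Real.pi), fourier (-n) (x : AddCircle (2 * Real.pi)) •
        G (x : AddCircle (2 * Real.pi)) = ∫ x in (0:ℝ)..(2 * Real.pi), g x * exp (-(I * n * x)) := by
      rw [zero_add]
      apply intervalIntegral.integral_congr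
      intro x _
      simp only [hG, fourier_coe_apply, smul_eq_mul]
      rw [mul_comm]
      congr 2
      push_cast
      have : (Real.pi : ℂ) ≠ 0 := by exact_mod_cast Real.pi_ne_zero
      field_simp
    rw [e, h0 n, smul_zero]
  have hsum : Summable (fourierCoeff G) := by
    have : fourierCoeff G = fun _ => 0 := funext hcoef
    rw [this]; exact summable_zero
  have h1 := has_pointwise_sum_fourier_series_of_summable hsum (τ : AddCircle (2 * Real.pi))
  simp only [hcoef, zero_smul] at h1
  have h2 := h1.unique hasSum_zero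
  rw [← hG]; exact h2

/-- Fourier coefficients with a complex frequency -/
noncomputable def cf (f : ℝ → ℂ) (N : ℂ) : ℂ :=
  ∫ τ in (0:ℝ)..(2 * Real.pi), f τ * exp (-(I * N * τ))

lemma cf_comb {f g : ℝ → ℂ} (hf : Continuous f) (hg : Continuous g) (α β N : ℂ) :
    cf (fun τ => α * f τ + β * g τ) N = α * cf f N + β * cf g N := by
  unfold cf
  rw [← intervalIntegral.integral_const_mul, ← intervalIntegral.integral_const_mul,
    ← intervalIntegral.integral_add]
  · apply intervalIntegral.integral_congr
    intro τ _
    simp only; ring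
  · apply Continuous.intervalIntegrable; fun_prop
  · apply Continuous.intervalIntegrable; fun_prop

/-- integration by parts -/
lemma cf_deriv {f f' : ℝ → ℂ} (hd : ∀ τ, HasDerivAt f (f' τ) τ) (hc : Continuous f') {N c : ℂ}
    (hN : exp (2 * Real.pi * I * N) = c) (hcf : f (2 * Real.pi) = c * f 0) :
    cf f' N = I * N * cf f N := by
  have hfc : Continuous f := continuous_iff_continuousAt.mpr fun τ => (hd τ).continuousAt
  have hd2 : ∀ τ : ℝ, HasDerivAt (fun τ : ℝ => f τ * exp (-(I * N * τ)))
      (f' τ * exp (-(I * N * τ)) - I * N * (f τ * exp (-(I * N * τ)))) τ := by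
    intro τ
    have h1 : HasDerivAt (fun τ : ℝ => exp (-(I * N * τ))) (exp (-(I * N * τ)) * (-(I * N * 1))) τ :=
      ((hasDerivAt_ofReal τ).const_mul (I * N)).fun_neg.cexp
    refine ((hd τ).fun_mul h1).congr_deriv ?_
    ring
  have h2 := intervalIntegral.integral_eq_sub_of_hasDerivAt (a := 0) (b := 2 * Real.pi)
    (fun τ _ => hd2 τ) (by apply Continuous.intervalIntegrable; fun_prop)
  rw [intervalIntegral.integral_sub (by apply Continuous.intervalIntegrable; fun_prop)
    (by apply Continuous.intervalIntegrable; fun_prop), intervalIntegral.integral_const_mul] at h2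
  have h3 : f (2 * Real.pi) * exp (-(I * N * ((2 * Real.pi : ℝ) : ℂ))) = f 0 := by
    rw [hcf, ← hN]
    have : -(I * N * ((2 * Real.pi : ℝ) : ℂ)) = -(2 * Real.pi * I * N) := by push_cast; ring
    rw [this, exp_neg]
    have := exp_ne_zero (2 * Real.pi * I * N)
    field_simp
  rw [h3] at h2
  simp only [ofReal_zero, mul_zero, neg_zero, exp_zero, mul_one, sub_self] at h2
  unfold cf
  linear_combination h2

/-- the recurrences for the Fourier coefficients -/
lemma cf_rec {l : ℤ} {μ κ : ℂ} {u v : ℝ → ℂ} (h : IsLin l μ κ u v) {c N : ℂ}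
    (hN : exp (2 * Real.pi * I * N) = c) (hu : u (2 * Real.pi) = c * u 0)
    (hv : v (2 * Real.pi) = c * v 0) :
    N * cf u N = κ * cf v N ∧
    N * cf v N = κ * cf u N + l * cf v N + μ * (cf v (N - 1) + cf v (N + 1)) := by
  have cu : Continuous u := continuous_iff_continuousAt.mpr fun τ => (h.du τ).continuousAt
  have cv : Continuous v := continuous_iff_continuousAt.mpr fun τ => (h.dv τ).continuousAt
  have cL := continuous_Lam l μ
  constructor
  · have h1 := cf_deriv h.du (by fun_prop) hN hu
    have h2 : cf (fun τ => I * (κ * v τ)) N = I * κ * cf v N := by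
      unfold cf
      rw [← intervalIntegral.integral_const_mul]
      apply intervalIntegral.integral_congr
      intro τ _
      simp only; ring
    rw [h2] at h1
    have h3 : I * (N * cf u N - κ * cf v N) = 0 := by linear_combination -h1
    have h4 := (mul_eq_zero.mp h3).resolve_left I_ne_zero
    linear_combination h4
  · have h1 := cf_deriv h.dv (by fun_prop) hN hv
    have h2 : cf (fun τ => I * (κ * u τ + Lam l μ τ * v τ)) N =
        I * (κ * cf u N + l * cf v N + μ * (cf v (N - 1) + cf v (N + 1))) := by
      unfold cf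
      rw [← intervalIntegral.integral_const_mul, ← intervalIntegral.integral_const_mul,
        ← intervalIntegral.integral_add (by apply Continuous.intervalIntegrable; fun_prop)
          (by apply Continuous.intervalIntegrable; fun_prop),
        ← intervalIntegral.integral_add (by apply Continuous.intervalIntegrable; fun_prop)
          (by apply Continuous.intervalIntegrable; fun_prop),
        ← intervalIntegral.integral_const_mul,
        ← intervalIntegral.integral_add (by apply Continuous.intervalIntegrable; fun_prop)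
          (by apply Continuous.intervalIntegrable; fun_prop),
        ← intervalIntegral.integral_const_mul]
      apply intervalIntegral.integral_congr
      intro τ _
      simp only
      have e1 : exp (-(I * (N - 1) * τ)) = exp (-(I * N * τ)) * exp (I * τ) := by
        rw [← exp_add]; congr 1; ring
      have e2 : exp (-(I * (N + 1) * τ)) = exp (-(I * N * τ)) * exp (-(I * τ)) := by
        rw [← exp_add]; congr 1; ring
      rw [e1, e2]
      unfold Lam
      ring
    rw [h2] at h1
    have h3 : I * (N * cf v N - (κ * cf u N + l * cf v N + μ * (cf v (N - 1) + cf v (N + 1)))) = 0 := by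
      linear_combination -h1
    have h4 := (mul_eq_zero.mp h3).resolve_left I_ne_zero
    linear_combination h4

/-- uniform bound -/
lemma cf_bound (f : ℝ → ℂ) (ν : ℂ) :
    ∃ C : ℝ, ∀ n : ℤ, ‖cf f (ν + n)‖ ≤ C := by
  refine ⟨∫ τ in (0:ℝ)..(2 * Real.pi), ‖f τ * exp (-(I * ν * τ))‖, fun n => ?_⟩
  unfold cf
  refine (intervalIntegral.norm_integral_le_integral_norm (by positivity)).trans (le_of_eq ?_)
  apply intervalIntegral.integral_congr
  intro τ _
  simp only [norm_mul]
  congr 1
  have e : exp (-(I * (ν + n) * τ)) = exp (-(I * ν * τ)) * exp (((-(n * τ) : ℝ) : ℂ) * I) := by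
    rw [← exp_add]; congr 1; push_cast; ring
  rw [e, norm_mul, Complex.norm_exp_ofReal_mul_I, mul_one]

/-- completeness for quasi-periodic functions -/
lemma cf_complete {f : ℝ → ℂ} (hf : Continuous f) {ν c : ℂ} (hν : exp (2 * Real.pi * I * ν) = c)
    (hp : ∀ τ, f (τ + 2 * Real.pi) = c * f τ) (h0 : ∀ n : ℤ, cf f (ν + n) = 0) (τ : ℝ) :
    f τ = 0 := by
  have h1 := fourier_complete (g := fun τ => f τ * exp (-(I * ν * τ))) (by fun_prop)
    (by
      intro τ
      rw [hp, ← hν]
      have e : exp (-(I * ν * ((τ + 2 * Real.pi : ℝ) : ℂ))) =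
          exp (-(I * ν * τ)) * (exp (2 * Real.pi * I * ν))⁻¹ := by
        rw [← exp_neg, ← exp_add]; congr 1; push_cast; ring
      rw [e]
      have := exp_ne_zero (2 * Real.pi * I * ν)
      field_simp)
    (by
      intro n
      have h2 := h0 n
      unfold cf at h2
      rw [← h2]
      apply intervalIntegral.integral_congr
      intro τ _
      beta_reduce
      rw [mul_assoc, ← exp_add]
      congr 2
      ring) τ
  exact (mul_eq_zero.mp h1).resolve_right (exp_ne_zero _)

end Pool.Agent.Lib.MP_557074_an
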