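import Pool.Agent.Lib.MP_557074_an.Bounded

set_option autoImplicit false
open Complex Filter Topology

namespace Pool.Agent.Lib.MP_557074_an

/-- diagonal coefficient -/
noncomputable def bc (L : ℕ) (e : ℂ) (n : ℕ) : ℂ := ((n + 1 : ℕ) : ℂ) + L + e / ((n + 1 : ℕ) : ℂ)

lemma wseq_succ (L : ℕ) (e μ : ℂ) (n : ℕ) :
    wseq L e μ (n + 2) = bc L e n / μ * wseq L e μ (n + 1) - wseq L e μ n := rfl

/-- Green's identity -/
lemma green (L : ℕ) (e μ μ' : ℂ) (N : ℕ) :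
    (1 / μ - 1 / μ') * ∑ n ∈ Finset.range N, bc L e n * wseq L e μ (n + 1) * wseq L e μ' (n + 1) =
      wseq L e μ (N + 1) * wseq L e μ' N - wseq L e μ N * wseq L e μ' (N + 1) := by
  induction N with
  | zero => simp [wseq]
  | succ N ih =>
    rw [Finset.sum_range_succ, mul_add, ih, wseq_succ, wseq_succ]
    ring

lemma bc_large {L : ℕ} {e μ : ℂ} {E R : ℝ} (he : ‖e‖ ≤ E) (hμ : ‖μ‖ ≤ R) (hμ0 : μ ≠ 0)
    {n : ℕ} (hn : 3 * R + E ≤ n) : 3 ≤ ‖bc L e n / μ‖ := by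
  have hpos : 0 < ‖μ‖ := norm_pos_iff.mpr hμ0
  rw [norm_div, le_div_iff₀ hpos]
  unfold bc
  have h1 : ‖e / ((n + 1 : ℕ) : ℂ)‖ ≤ ‖e‖ := by
    rw [norm_div, Complex.norm_natCast]
    apply div_le_self (norm_nonneg _)
    push_cast
    have : (0:ℝ) ≤ n := Nat.cast_nonneg n
    linarith
  have h2 : ((n + 1 : ℕ) : ℝ) + L ≤ ‖((n + 1 : ℕ) : ℂ) + L + e / ((n + 1 : ℕ) : ℂ)‖ +
      ‖e / ((n + 1 : ℕ) : ℂ)‖ := by
    have h3 : ((n + 1 : ℕ) : ℝ) + L = ‖((n + 1 : ℕ) : ℂ) + L‖ := by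
      have : ((n + 1 : ℕ) : ℂ) + L = ((n + 1 + L : ℕ) : ℂ) := by push_cast; ring
      rw [this, Complex.norm_natCast]
      push_cast; ring
    rw [h3]
    calc ‖((n + 1 : ℕ) : ℂ) + L‖ = ‖(((n + 1 : ℕ) : ℂ) + L + e / ((n + 1 : ℕ) : ℂ)) +
          (-(e / ((n + 1 : ℕ) : ℂ)))‖ := by congr 1; ring
      _ ≤ _ := by
          refine (norm_add_le _ _).trans ?_
          rw [norm_neg]
  have h4 : (0:ℝ) ≤ L := Nat.cast_nonneg L
  push_cast at h1 h2 ⊢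
  linarith

/-- geometric decay -/
lemma wseq_decay {L : ℕ} {e μ : ℂ} {E R : ℝ} (he : ‖e‖ ≤ E) (hμ : ‖μ‖ ≤ R) (hμ0 : μ ≠ 0)
    {n0 : ℕ} (hn : 3 * R + E ≤ n0) {C : ℝ} (hb : ∀ n, ‖wseq L e μ n‖ ≤ C) (k : ℕ) :
    ‖wseq L e μ (n0 + k)‖ ≤ ‖wseq L e μ n0‖ * (1 / 2) ^ k := by
  have hdec := decay (a := fun n => bc L e (n - 1) / μ) (w := wseq L e μ) (n0 := n0)
    (by intro n _; simp only [Nat.add_sub_cancel]; exact wseq_succ L e μ n)
    (by
      intro n hn'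
      simp only [Nat.add_sub_cancel]
      apply bc_large he hμ hμ0
      have : (n0 : ℝ) ≤ n := by exact_mod_cast hn'
      linarith) hb
  induction k with
  | zero => simp
  | succ k ih =>
    have h1 := hdec (n0 + k) (by omega)
    rw [← add_assoc, pow_succ]
    linarith

lemma wseq_continuousAt (L : ℕ) {e0 μ0 : ℂ} (hμ0 : μ0 ≠ 0) (n : ℕ) :
    ContinuousAt (fun p : ℂ × ℂ => wseq L p.1 p.2 n) (e0, μ0) := by
  induction n using Nat.twoStepInduction with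
  | zero => exact continuousAt_const
  | one => exact continuousAt_const
  | more n i1 i2 =>
    have h1 : ContinuousAt (fun p : ℂ × ℂ => bc L p.1 n / p.2) (e0, μ0) := by
      apply ContinuousAt.div
      · unfold bc
        have hn1 : ((n + 1 : ℕ) : ℂ) ≠ 0 := Nat.cast_ne_zero.mpr (Nat.succ_ne_zero n)
        fun_prop (disch := exact hn1)
      · exact continuousAt_snd
      · exact hμ0
    exact (h1.mul i2).sub i1

lemma wseq_real (L : ℕ) (e0 μ0 : ℝ) (n : ℕ) : ∃ r : ℝ, wseq L e0 μ0 n = (r : ℂ) := by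
  induction n using Nat.twoStepInduction with
  | zero => exact ⟨0, by simp [wseq]⟩
  | one => exact ⟨1, by simp [wseq]⟩
  | more n i1 i2 =>
    obtain ⟨r1, h1⟩ := i1
    obtain ⟨r2, h2⟩ := i2
    refine ⟨(((n + 1 : ℕ) : ℝ) + L + e0 / ((n + 1 : ℕ) : ℝ)) / μ0 * r2 - r1, ?_⟩
    rw [wseq_succ, h1, h2]
    unfold bc
    push_cast
    ring

/-- positivity at real points -/
lemma sum_real_pos (L : ℕ) {e0 : ℝ} (he0 : 0 ≤ e0) (μ0 : ℝ) {N : ℕ} (hN : 1 ≤ N) :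
    1 ≤ ‖∑ n ∈ Finset.range N, bc L e0 n * wseq L e0 μ0 (n + 1) * wseq L e0 μ0 (n + 1)‖ := by
  have h1 : ∀ n, ∃ r : ℝ, wseq L e0 μ0 n = (r : ℂ) := wseq_real L e0 μ0
  choose r hr using h1
  have e : ∑ n ∈ Finset.range N, bc L e0 n * wseq L e0 μ0 (n + 1) * wseq L e0 μ0 (n + 1) =
      ((∑ n ∈ Finset.range N, (((n + 1 : ℕ) : ℝ) + L + e0 / ((n + 1 : ℕ) : ℝ)) * r (n + 1) ^ 2 : ℝ) : ℂ) := by
    rw [Complex.ofReal_sum]
    apply Finset.sum_congr rfl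
    intro n _
    rw [hr]
    unfold bc
    push_cast
    ring
  rw [e, Complex.norm_real, Real.norm_eq_abs]
  refine le_trans ?_ (le_abs_self _)
  obtain ⟨M, rfl⟩ : ∃ M, N = M + 1 := ⟨N - 1, by omega⟩
  rw [Finset.sum_range_succ']
  have hr1 : r (0 + 1) = 1 := by
    have := hr 1
    simp only [wseq] at this
    exact_mod_cast this.symm
  have h2 : 0 ≤ ∑ k ∈ Finset.range M, (((k + 1 + 1 : ℕ) : ℝ) + L + e0 / ((k + 1 + 1 : ℕ) : ℝ)) *
      r (k + 1 + 1) ^ 2 := by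
    apply Finset.sum_nonneg
    intro k _
    positivity
  rw [hr1]
  have h3 : (0:ℝ) ≤ L := Nat.cast_nonneg L
  push_cast at h2 ⊢
  norm_num
  linarith

/-- **Local injectivity in terms of the sequences.** -/
theorem local_inj_seq (L : ℕ) {e0 μ0 : ℝ} (he0 : 0 ≤ e0) (hμ0 : μ0 ≠ 0) :
    ∃ r > 0, ∀ e μ μ' : ℂ, ‖e - e0‖ < r → ‖μ - μ0‖ < r → ‖μ' - μ0‖ < r →
      (∃ C : ℝ, ∀ n, ‖wseq L e μ n‖ ≤ C) → (∃ C : ℝ, ∀ n, ‖wseq L e μ' n‖ ≤ C) → μ = μ' := by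
  have hμ0' : (μ0 : ℂ) ≠ 0 := by exact_mod_cast hμ0
  obtain ⟨E, hE⟩ : ∃ E : ℝ, E = ‖(e0 : ℂ)‖ + 1 := ⟨_, rfl⟩
  obtain ⟨R, hR⟩ : ∃ R : ℝ, R = ‖(μ0 : ℂ)‖ + 1 := ⟨_, rfl⟩
  have hE0 : 0 ≤ E := by rw [hE]; positivity
  have hR0 : 0 ≤ R := by rw [hR]; positivity
  obtain ⟨n0, hn0⟩ := exists_nat_ge (3 * R + E)
  obtain ⟨K, hK⟩ : ∃ K : ℝ, K = ‖wseq L e0 μ0 n0‖ + 1 := ⟨_, rfl⟩
  have hK0 : 0 < K := by rw [hK]; positivity
  -- uniform bound at index `n0`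
  have hnear1 : ∀ᶠ p : ℂ × ℂ in 𝓝 ((e0 : ℂ), (μ0 : ℂ)), ‖wseq L p.1 p.2 n0‖ < K := by
    have h1 := (wseq_continuousAt L (e0 := e0) hμ0' n0).norm
    apply h1.eventually (gt_mem_nhds _)
    simp only [hK]
    linarith
  -- summable tail
  have hsum : Summable (fun k : ℕ => ((n0 : ℝ) + k + 1 + L + E) * (K ^ 2 * (1 / 4) ^ k)) := by
    have h1 : Summable (fun k : ℕ => (k : ℝ) * (1 / 4) ^ k) := by
      have := summable_pow_mul_geometric_of_norm_lt_one 1 (r := (1 / 4 : ℝ)) (by norm_num)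
      simpa using this
    have h2 : Summable (fun k : ℕ => (1 / 4 : ℝ) ^ k) :=
      summable_geometric_of_lt_one (by norm_num) (by norm_num)
    have h3 := (h1.mul_left (K ^ 2)).add (h2.mul_left (((n0 : ℝ) + 1 + L + E) * K ^ 2))
    refine h3.congr fun k => ?_
    ring
  have hcauchy := (hsum.hasSum.tendsto_sum_nat).cauchySeq
  rw [Metric.cauchySeq_iff'] at hcauchy
  obtain ⟨k0, hk0⟩ := hcauchy (1 / 4) (by norm_num)
  -- the partial sum is continuous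
  obtain ⟨N, hN⟩ : ∃ N, N = n0 + k0 + 1 := ⟨_, rfl⟩
  let S : ℕ → ℂ → ℂ → ℂ → ℂ := fun M e μ μ' =>
    ∑ n ∈ Finset.range M, bc L e n * wseq L e μ (n + 1) * wseq L e μ' (n + 1)
  have hScont : ContinuousAt (fun q : ℂ × ℂ × ℂ => S N q.1 q.2.1 q.2.2)
      ((e0 : ℂ), (μ0 : ℂ), (μ0 : ℂ)) := by
    apply tendsto_finsetSum
    intro n _
    apply Filter.Tendsto.mul
    · apply Filter.Tendsto.mul
      · have : Continuous (fun q : ℂ × ℂ × ℂ => bc L q.1 n) := by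
          unfold bc
          fun_prop
        exact this.continuousAt
      · have h1 := wseq_continuousAt L (e0 := e0) hμ0' (n + 1)
        have h2 : ContinuousAt (fun q : ℂ × ℂ × ℂ => (q.1, q.2.1)) ((e0 : ℂ), (μ0 : ℂ), (μ0 : ℂ)) := by
          fun_prop
        exact ContinuousAt.comp (f := fun q : ℂ × ℂ × ℂ => (q.1, q.2.1)) (g := fun p : ℂ × ℂ =>
          wseq L p.1 p.2 (n + 1)) h1 h2
    · have h1 := wseq_continuousAt L (e0 := e0) hμ0' (n + 1)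
      have h2 : ContinuousAt (fun q : ℂ × ℂ × ℂ => (q.1, q.2.2)) ((e0 : ℂ), (μ0 : ℂ), (μ0 : ℂ)) := by
        fun_prop
      exact ContinuousAt.comp (f := fun q : ℂ × ℂ × ℂ => (q.1, q.2.2)) (g := fun p : ℂ × ℂ =>
        wseq L p.1 p.2 (n + 1)) h1 h2
  have hnear2 : ∀ᶠ q : ℂ × ℂ × ℂ in 𝓝 ((e0 : ℂ), (μ0 : ℂ), (μ0 : ℂ)),
      dist (S N q.1 q.2.1 q.2.2) (S N e0 μ0 μ0) < 1 / 4 :=
    Metric.tendsto_nhds.mp hScont _ (by norm_num)
  obtain ⟨r1, hr1, hr1'⟩ := Metric.eventually_nhds_iff_ball.mp hnear1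
  obtain ⟨r2, hr2, hr2'⟩ := Metric.eventually_nhds_iff_ball.mp hnear2
  have hμabs : 0 < ‖(μ0 : ℂ)‖ := norm_pos_iff.mpr hμ0'
  refine ⟨min (min r1 r2) (min 1 ‖(μ0 : ℂ)‖), by positivity, ?_⟩
  intro e μ μ' h1 h2 h3 hb hb'
  obtain ⟨C, hC⟩ := hb
  obtain ⟨C', hC'⟩ := hb'
  simp only [lt_min_iff] at h1 h2 h3
  have hne : ∀ ν : ℂ, ‖ν - μ0‖ < ‖(μ0 : ℂ)‖ → ν ≠ 0 := by
    rintro ν hν rfl
    rw [zero_sub, norm_neg] at hν
    exact lt_irrefl _ hν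
  have hμne := hne μ h2.2.2
  have hμne' := hne μ' h3.2.2
  have heE : ‖e‖ ≤ E := by
    have := norm_sub_norm_le e (e0 : ℂ)
    rw [hE]; linarith [h1.2.1]
  have hμR : ‖μ‖ ≤ R := by
    have := norm_sub_norm_le μ (μ0 : ℂ)
    rw [hR]; linarith [h2.2.1]
  have hμR' : ‖μ'‖ ≤ R := by
    have := norm_sub_norm_le μ' (μ0 : ℂ)
    rw [hR]; linarith [h3.2.1]
  have hKμ : ‖wseq L e μ n0‖ ≤ K := by
    refine (hr1' (e, μ) ?_).le
    rw [Metric.mem_ball, Prod.dist_eq, max_lt_iff, dist_eq_norm, dist_eq_norm]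
    exact ⟨h1.1.1, h2.1.1⟩
  have hKμ' : ‖wseq L e μ' n0‖ ≤ K := by
    refine (hr1' (e, μ') ?_).le
    rw [Metric.mem_ball, Prod.dist_eq, max_lt_iff, dist_eq_norm, dist_eq_norm]
    exact ⟨h1.1.1, h3.1.1⟩
  have hd : ∀ k, ‖wseq L e μ (n0 + k)‖ ≤ K * (1 / 2) ^ k := fun k =>
    (wseq_decay heE hμR hμne hn0 hC k).trans (by gcongr)
  have hd' : ∀ k, ‖wseq L e μ' (n0 + k)‖ ≤ K * (1 / 2) ^ k := fun k =>
    (wseq_decay heE hμR' hμne' hn0 hC' k).trans (by gcongr)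
  -- tail estimate
  have htail : ∀ j, ‖S (N + j) e μ μ' - S N e μ μ'‖ ≤
      (∑ k ∈ Finset.range (k0 + j), ((n0 : ℝ) + k + 1 + L + E) * (K ^ 2 * (1 / 4) ^ k)) -
      ∑ k ∈ Finset.range k0, ((n0 : ℝ) + k + 1 + L + E) * (K ^ 2 * (1 / 4) ^ k) := by
    intro j
    induction j with
    | zero => simp
    | succ j ih =>
      have e1 : S (N + (j + 1)) e μ μ' = S (N + j) e μ μ' +
          bc L e (N + j) * wseq L e μ (N + j + 1) * wseq L e μ' (N + j + 1) := by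
        simp only [S, ← add_assoc]
        rw [Finset.sum_range_succ]
      rw [e1, ← add_assoc k0 j 1, Finset.sum_range_succ]
      have hbc : ‖bc L e (N + j)‖ ≤ (n0 : ℝ) + ((k0 + j : ℕ) : ℝ) + 1 + 1 + L + E := by
        unfold bc
        refine (norm_add_le _ _).trans ?_
        have h4 : ‖e / (((N + j) + 1 : ℕ) : ℂ)‖ ≤ E := by
          rw [norm_div, Complex.norm_natCast]
          refine (div_le_self (norm_nonneg _) ?_).trans heE
          push_cast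
          have : (0:ℝ) ≤ (N : ℝ) + j := by positivity
          linarith
        have h5 : ‖(((N + j) + 1 : ℕ) : ℂ) + (L : ℂ)‖ ≤ ((N + j + 1 : ℕ) : ℝ) + L := by
          refine (norm_add_le _ _).trans ?_
          rw [Complex.norm_natCast, Complex.norm_natCast]
        have h6 : ((N + j + 1 : ℕ) : ℝ) = (n0 : ℝ) + ((k0 + j : ℕ) : ℝ) + 1 + 1 := by
          rw [hN]; push_cast; ring
        rw [h6] at h5
        linarith
      have e2 : N + j + 1 = n0 + (k0 + j + 2) := by rw [hN]; ring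
      have hterm : ‖bc L e (N + j) * wseq L e μ (N + j + 1) * wseq L e μ' (N + j + 1)‖ ≤
          ((n0 : ℝ) + ((k0 + j : ℕ) : ℝ) + 1 + L + E) * (K ^ 2 * (1 / 4) ^ (k0 + j)) := by
        rw [norm_mul, norm_mul, e2]
        have a1 := hd (k0 + j + 2)
        have a2 := hd' (k0 + j + 2)
        have hq : (0:ℝ) ≤ (n0 : ℝ) + ((k0 + j : ℕ) : ℝ) + 1 + L + E := by positivity
        calc ‖bc L e (N + j)‖ * ‖wseq L e μ (n0 + (k0 + j + 2))‖ *
              ‖wseq L e μ' (n0 + (k0 + j + 2))‖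
            ≤ ((n0 : ℝ) + ((k0 + j : ℕ) : ℝ) + 1 + 1 + L + E) * (K * (1 / 2) ^ (k0 + j + 2)) *
              (K * (1 / 2) ^ (k0 + j + 2)) := by gcongr
          _ = ((n0 : ℝ) + ((k0 + j : ℕ) : ℝ) + 1 + 1 + L + E) * (K ^ 2 * ((1 / 4) ^ (k0 + j) / 16)) := by
              have : ((1:ℝ) / 4) ^ (k0 + j) = (1 / 2) ^ (k0 + j) * (1 / 2) ^ (k0 + j) := by
                rw [← mul_pow]; norm_num
              rw [this, pow_add]; ring
          _ ≤ (2 * ((n0 : ℝ) + ((k0 + j : ℕ) : ℝ) + 1 + L + E)) * (K ^ 2 * ((1 / 4) ^ (k0 + j) / 16)) := by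
              gcongr
              have : (0:ℝ) ≤ (n0 : ℝ) + ((k0 + j : ℕ) : ℝ) + L + E := by positivity
              linarith
          _ ≤ _ := by
              have h7 : (0:ℝ) ≤ ((n0 : ℝ) + ((k0 + j : ℕ) : ℝ) + 1 + L + E) *
                (K ^ 2 * (1 / 4) ^ (k0 + j)) := by positivity
              linarith
      calc ‖S (N + j) e μ μ' + bc L e (N + j) * wseq L e μ (N + j + 1) * wseq L e μ' (N + j + 1) -
            S N e μ μ'‖
          = ‖(S (N + j) e μ μ' - S N e μ μ') +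
            bc L e (N + j) * wseq L e μ (N + j + 1) * wseq L e μ' (N + j + 1)‖ := by
            congr 1; ring
        _ ≤ _ := norm_add_le _ _
        _ ≤ _ := by linarith
  have hlow : ∀ j, 1 / 2 ≤ ‖S (N + j) e μ μ'‖ := by
    intro j
    have a1 := htail j
    have a2 := hk0 (k0 + j) (by omega)
    rw [Real.dist_eq, abs_lt] at a2
    have a3 := hr2' (e, μ, μ') (by
      rw [Metric.mem_ball, Prod.dist_eq, max_lt_iff, Prod.dist_eq, max_lt_iff, dist_eq_norm,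
        dist_eq_norm, dist_eq_norm]
      exact ⟨h1.1.2, h2.1.2, h3.1.2⟩)
    simp only at a3
    rw [dist_eq_norm] at a3
    have a4 : 1 ≤ ‖S N e0 μ0 μ0‖ := sum_real_pos L he0 μ0 (by omega)
    have a5 := norm_sub_norm_le (S N (e0 : ℂ) μ0 μ0) (S N e μ μ')
    rw [norm_sub_rev] at a5
    have a6 := norm_sub_norm_le (S N e μ μ') (S (N + j) e μ μ')
    rw [norm_sub_rev] at a6
    linarith [a2.2]
  -- conclusion
  have hlim : ∀ j, ‖1 / μ - 1 / μ'‖ * (1 / 2) ≤ 2 * K ^ 2 * (1 / 2) ^ j := by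
    intro j
    have g := green L e μ μ' (N + j)
    have g1 : ‖1 / μ - 1 / μ'‖ * ‖S (N + j) e μ μ'‖ =
        ‖wseq L e μ (N + j + 1) * wseq L e μ' (N + j) -
          wseq L e μ (N + j) * wseq L e μ' (N + j + 1)‖ := by
      rw [← norm_mul, ← g]
    have e2 : N + j + 1 = n0 + (k0 + j + 2) := by rw [hN]; ring
    have e3 : N + j = n0 + (k0 + j + 1) := by rw [hN]; ring
    rw [e2, e3] at g1
    have hle1 : ∀ m : ℕ, ((1:ℝ) / 2) ^ m ≤ 1 := fun m => pow_le_one₀ (by norm_num) (by norm_num)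
    have b1 := hd (k0 + j + 2)
    have b2 := hd' (k0 + j + 2)
    have b3 := hd (k0 + j + 1)
    have b4 := hd' (k0 + j + 1)
    have hpj : ((1:ℝ) / 2) ^ (k0 + j + 2) ≤ (1 / 2) ^ j := by
      apply pow_le_pow_of_le_one (by norm_num) (by norm_num); omega
    have hpj' : ((1:ℝ) / 2) ^ (k0 + j + 1) ≤ 1 := hle1 _
    have hpos1 : (0:ℝ) ≤ (1 / 2) ^ j := by positivity
    have c1 : ‖wseq L e μ (n0 + (k0 + j + 2))‖ ≤ K * (1 / 2) ^ j := b1.trans (by gcongr)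
    have c2 : ‖wseq L e μ' (n0 + (k0 + j + 2))‖ ≤ K * (1 / 2) ^ j := b2.trans (by gcongr)
    have c3 : ‖wseq L e μ (n0 + (k0 + j + 1))‖ ≤ K := b3.trans (by nlinarith)
    have c4 : ‖wseq L e μ' (n0 + (k0 + j + 1))‖ ≤ K := b4.trans (by nlinarith)
    have d1 := hlow j
    rw [e3] at d1
    calc ‖1 / μ - 1 / μ'‖ * (1 / 2) ≤ ‖1 / μ - 1 / μ'‖ * ‖S (n0 + (k0 + j + 1)) e μ μ'‖ := by
          gcongr
      _ = _ := g1
      _ ≤ ‖wseq L e μ (n0 + (k0 + j + 2)) * wseq L e μ' (n0 + (k0 + j + 1))‖ +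
          ‖wseq L e μ (n0 + (k0 + j + 1)) * wseq L e μ' (n0 + (k0 + j + 2))‖ := norm_sub_le _ _
      _ ≤ (K * (1 / 2) ^ j) * K + K * (K * (1 / 2) ^ j) := by
          rw [norm_mul, norm_mul]
          gcongr
      _ = _ := by ring
  have hfin : ‖1 / μ - 1 / μ'‖ * (1 / 2) ≤ 0 := by
    apply ge_of_tendsto' (x := atTop) (f := fun j : ℕ => 2 * K ^ 2 * (1 / 2 : ℝ) ^ j) _ hlim
    have := (tendsto_pow_atTop_nhds_zero_of_lt_one (r := (1 / 2 : ℝ)) (by norm_num)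
      (by norm_num)).const_mul (2 * K ^ 2)
    rwa [mul_zero] at this
  have hz : 1 / μ - 1 / μ' = 0 := by
    apply norm_le_zero_iff.mp
    linarith
  field_simp at hz
  linear_combination -hz

end Pool.Agent.Lib.MP_557074_an
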