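import Mathlib

set_option autoImplicit false
open MeasureTheory Filter Topology Set

namespace Pool.Agent.Lib.MP_557074_an

section linear

variable {E : Type} [NormedAddCommGroup E] [NormedSpace ℂ E] [CompleteSpace E]

/-- Picard iterates of a linear differential equation -/
noncomputable def pic (A : ℝ → E →L[ℂ] E) (x0 : E) : ℕ → ℝ → E
  | 0 => fun _ => x0
  | n + 1 => fun t => ∫ s in (0:ℝ)..t, A s (pic A x0 n s)

omit [CompleteSpace E] in
lemma pic_cont {A : ℝ → E →L[ℂ] E} (hA : Continuous A) (x0 : E) (n : ℕ) :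
    Continuous (pic A x0 n) := by
  induction n with
  | zero => exact continuous_const
  | succ n ih =>
    have h : Continuous (fun s => A s (pic A x0 n s)) := hA.clm_apply ih
    exact intervalIntegral.continuous_primitive (fun a b => h.intervalIntegrable a b) 0

lemma pic_deriv {A : ℝ → E →L[ℂ] E} (hA : Continuous A) (x0 : E) (n : ℕ) (t : ℝ) :
    HasDerivAt (pic A x0 (n + 1)) (A t (pic A x0 n t)) t := by
  have h : Continuous (fun s => A s (pic A x0 n s)) := hA.clm_apply (pic_cont hA x0 n)
  exact intervalIntegral.integral_hasDerivAt_right (h.intervalIntegrable _ _)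
    (h.stronglyMeasurableAtFilter _ _) h.continuousAt

omit [CompleteSpace E] in
lemma pic_bound {A : ℝ → E →L[ℂ] E} (hA : Continuous A) {C : ℝ} (hC : ∀ t, ‖A t‖ ≤ C) (x0 : E)
    (n : ℕ) (t : ℝ) : ‖pic A x0 n t‖ ≤ ‖x0‖ * ((C * |t|) ^ n / n.factorial) := by
  have hC0 : 0 ≤ C := (norm_nonneg _).trans (hC 0)
  induction n generalizing t with
  | zero => simp [pic]
  | succ n ih =>
    have h1 : ‖pic A x0 (n + 1) t‖ ≤ ∫ s in Set.uIoc (0:ℝ) t, ‖A s (pic A x0 n s)‖ :=
      intervalIntegral.norm_integral_le_integral_norm_uIoc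
    have h : Continuous (fun s => A s (pic A x0 n s)) := hA.clm_apply (pic_cont hA x0 n)
    have h2 : ∫ s in Set.uIoc (0:ℝ) t, ‖A s (pic A x0 n s)‖ ≤
        ∫ s in Set.uIoc (0:ℝ) t, (C * (‖x0‖ * (C ^ n / n.factorial))) * |s - 0| ^ n := by
      apply setIntegral_mono_on
      · exact (h.norm.integrableOn_uIcc).mono_set Set.uIoc_subset_uIcc
      · have : Continuous (fun s : ℝ => (C * (‖x0‖ * (C ^ n / n.factorial))) * |s - 0| ^ n) := by
          fun_prop
        exact (this.integrableOn_uIcc).mono_set Set.uIoc_subset_uIcc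
      · exact measurableSet_uIoc
      · intro s _
        calc ‖A s (pic A x0 n s)‖ ≤ ‖A s‖ * ‖pic A x0 n s‖ := (A s).le_opNorm _
          _ ≤ C * (‖x0‖ * ((C * |s|) ^ n / n.factorial)) :=
              mul_le_mul (hC s) (ih s) (norm_nonneg _) hC0
          _ = _ := by rw [sub_zero, mul_pow]; ring
    refine h1.trans (h2.trans (le_of_eq ?_))
    rw [integral_const_mul, integral_pow_abs_sub_uIoc, sub_zero, Nat.factorial_succ]
    push_cast
    have : (n.factorial : ℝ) ≠ 0 := by positivity
    have h3 : (n : ℝ) + 1 ≠ 0 := by positivity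
    field_simp
    ring

/-- Global existence for linear equations. -/
theorem lin_exists {A : ℝ → E →L[ℂ] E} (hA : Continuous A) {C : ℝ} (hC : ∀ t, ‖A t‖ ≤ C)
    (x0 : E) : ∃ x : ℝ → E, x 0 = x0 ∧ ∀ t, HasDerivAt x (A t (x t)) t := by
  have hC0 : 0 ≤ C := (norm_nonneg _).trans (hC 0)
  have hsum : ∀ t, Summable (fun n => pic A x0 n t) := by
    intro t
    apply Summable.of_norm_bounded (g := fun n => ‖x0‖ * ((C * |t|) ^ n / n.factorial))
    · exact (Real.summable_pow_div_factorial _).mul_left _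
    · exact fun n => pic_bound hA hC x0 n t
  have h0 : ∀ n, pic A x0 (n + 1) 0 = 0 := by
    intro n
    simp [pic]
  refine ⟨fun t => ∑' n, pic A x0 n t, ?_, ?_⟩
  · simp only
    rw [(hsum 0).tsum_eq_zero_add]
    simp only [h0, tsum_zero, add_zero]
    rfl
  · intro t
    have hd : HasDerivAt (fun z => ∑' n, pic A x0 (n + 1) z) (∑' n, A t (pic A x0 n t)) t := by
      apply hasDerivAt_tsum_of_isPreconnected
        (g := fun n z => pic A x0 (n + 1) z) (g' := fun n z => A z (pic A x0 n z))
        (u := fun n : ℕ => C * (‖x0‖ * ((C * (|t| + 1)) ^ n / (n.factorial : ℝ))))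
        (t := Ioo (-(|t| + 1)) (|t| + 1)) (y₀ := 0)
      · exact ((Real.summable_pow_div_factorial _).mul_left _).mul_left _
      · exact isOpen_Ioo
      · exact isPreconnected_Ioo
      · exact fun n y _ => pic_deriv hA x0 n y
      · intro n y hy
        have hy' : |y| ≤ |t| + 1 := abs_le.mpr ⟨hy.1.le, hy.2.le⟩
        calc ‖A y (pic A x0 n y)‖ ≤ ‖A y‖ * ‖pic A x0 n y‖ := (A y).le_opNorm _
          _ ≤ C * (‖x0‖ * ((C * |y|) ^ n / n.factorial)) :=
              mul_le_mul (hC y) (pic_bound hA hC x0 n y) (norm_nonneg _) hC0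
          _ ≤ _ := by gcongr
      · constructor <;> linarith [abs_nonneg t]
      · simp only [h0]
        exact summable_zero
      · constructor
        · linarith [neg_abs_le t]
        · linarith [le_abs_self t]
    have e1 : (fun z => ∑' n, pic A x0 n z) = fun z => x0 + ∑' n, pic A x0 (n + 1) z := by
      funext z
      rw [(hsum z).tsum_eq_zero_add]
      rfl
    have e2 : ∑' n, A t (pic A x0 n t) = A t (∑' n, pic A x0 n t) :=
      ((A t).map_tsum (hsum t)).symm
    rw [← e2, e1]
    exact hd.const_add x0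

end linear

end Pool.Agent.Lib.MP_557074_an
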