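import Pool.Agent.Lib.MP_557074_an.Fourier

set_option autoImplicit false
open Complex MeasureTheory Filter Topology

namespace Pool.Agent.Lib.MP_557074_an

/-- Bounded solutions of a strongly dominated three term recurrence decay geometrically. -/
lemma decay {a w : ℕ → ℂ} {n0 : ℕ} (hrec : ∀ n ≥ n0, w (n + 2) = a (n + 1) * w (n + 1) - w n)
    (ha : ∀ n ≥ n0, 3 ≤ ‖a (n + 1)‖) {C : ℝ} (hb : ∀ n, ‖w n‖ ≤ C) :
    ∀ n ≥ n0, ‖w (n + 1)‖ ≤ (1 / 2) * ‖w n‖ := by
  have hstep : ∀ n ≥ n0, 3 * ‖w (n + 1)‖ - ‖w n‖ ≤ ‖w (n + 2)‖ := by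
    intro n hn
    rw [hrec n hn]
    have h1 := norm_sub_norm_le (a (n + 1) * w (n + 1)) (w n)
    rw [norm_mul] at h1
    have h2 := mul_le_mul_of_nonneg_right (ha n hn) (norm_nonneg (w (n + 1)))
    linarith
  intro n hn
  by_contra hcon
  have hcon' : ‖w n‖ < 2 * ‖w (n + 1)‖ := by
    have := not_le.mp hcon
    linarith
  have h0 : ‖w (n + 1)‖ < ‖w (n + 2)‖ := by
    have := hstep n hn
    linarith
  have hpos : 0 < ‖w (n + 2)‖ := lt_of_le_of_lt (norm_nonneg _) h0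
  have key : ∀ j : ℕ, 2 ^ j * ‖w (n + 2)‖ ≤ ‖w (n + 2 + j)‖ ∧ ‖w (n + 1 + j)‖ < ‖w (n + 2 + j)‖ := by
    intro j
    induction j with
    | zero => exact ⟨by simp, h0⟩
    | succ j ih =>
      obtain ⟨i1, i2⟩ := ih
      have h1 := hstep (n + 1 + j) (by omega)
      have e1 : n + 1 + j + 1 = n + 2 + j := by omega
      have e2 : n + 1 + j + 2 = n + 2 + (j + 1) := by omega
      have e3 : n + 1 + (j + 1) = n + 2 + j := by omega
      rw [e1, e2] at h1
      rw [e3]
      have hp : 0 < ‖w (n + 2 + j)‖ := lt_of_le_of_lt (norm_nonneg _) i2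
      constructor
      · rw [pow_succ]; linarith
      · linarith
  obtain ⟨j, hj⟩ := pow_unbounded_of_one_lt (C / ‖w (n + 2)‖) (by norm_num : (1:ℝ) < 2)
  rw [div_lt_iff₀ hpos] at hj
  have := (key j).1.trans (hb _)
  linarith

/-- A two-sided recurrence with two consecutive zeros vanishes. -/
lemma two_sided {s a : ℤ → ℂ} (h : ∀ n, s (n + 1) + s (n - 1) = a n * s n) {m : ℤ}
    (h0 : s m = 0) (h1 : s (m + 1) = 0) (n : ℤ) : s n = 0 := by
  have hup : ∀ k : ℕ, s (m + k) = 0 ∧ s (m + k + 1) = 0 := by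
    intro k
    induction k with
    | zero => simpa using ⟨h0, h1⟩
    | succ k ih =>
      have h2 := h (m + k + 1)
      rw [show m + (k : ℤ) + 1 - 1 = m + k by ring, ih.1, ih.2, mul_zero, add_zero] at h2
      refine ⟨?_, ?_⟩
      · push_cast; rw [← add_assoc]; exact ih.2
      · push_cast; rw [← add_assoc]; exact h2
  have hdown : ∀ k : ℕ, s (m - k) = 0 ∧ s (m - k + 1) = 0 := by
    intro k
    induction k with
    | zero => simpa using ⟨h0, h1⟩
    | succ k ih =>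
      have h2 := h (m - k)
      rw [ih.1, ih.2, mul_zero, zero_add] at h2
      refine ⟨?_, ?_⟩
      · push_cast
        rw [show m - ((k : ℤ) + 1) = m - k - 1 by ring]; exact h2
      · push_cast
        rw [show m - ((k : ℤ) + 1) + 1 = m - k by ring]; exact ih.1
  rcases le_total m n with hmn | hmn
  · have := (hup (n - m).toNat).1
    rwa [Int.toNat_of_nonneg (by omega), add_sub_cancel] at this
  · have := (hdown (m - n).toNat).1
    rwa [Int.toNat_of_nonneg (by omega), sub_sub_cancel] at this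

/-- A nontrivial combination killing one functional. -/
lemma exists_comb (x y : ℂ) : ∃ α β : ℂ, (α ≠ 0 ∨ β ≠ 0) ∧ α * x + β * y = 0 := by
  by_cases hx : x = 0
  · exact ⟨1, 0, Or.inl one_ne_zero, by rw [hx]; ring⟩
  · exact ⟨y, -x, Or.inr (neg_ne_zero.mpr hx), by ring⟩

/-- The sequence of normalized coefficients -/
noncomputable def wseq (L : ℕ) (e μ : ℂ) : ℕ → ℂ
  | 0 => 0
  | 1 => 1
  | n + 2 => (((n + 1 : ℕ) : ℂ) + L + e / ((n + 1 : ℕ) : ℂ)) / μ * wseq L e μ (n + 1) - wseq L e μ n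

lemma wseq_eq {L : ℕ} {e μ : ℂ} {t : ℕ → ℂ} (h0 : t 0 = 0) (h1 : t 1 = 1)
    (h : ∀ n : ℕ, t (n + 2) = (((n + 1 : ℕ) : ℂ) + L + e / ((n + 1 : ℕ) : ℂ)) / μ * t (n + 1) - t n) :
    ∀ n, wseq L e μ n = t n := by
  intro n
  induction n using Nat.twoStepInduction with
  | zero => rw [h0]; rfl
  | one => rw [h1]; rfl
  | more n i1 i2 => rw [h n, ← i1, ← i2]; rfl

section main

variable {l : ℤ} {μ ω : ℂ}

/-- solutions through a multiplier: the coefficient sequences -/
lemma coef_rec {κ : ℂ} {u v : ℝ → ℂ} (h : IsLin l μ κ u v) {c ν : ℂ}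
    (hν : exp (2 * Real.pi * I * ν) = c)
    (hper : ∀ τ, u (τ + 2 * Real.pi) = c * u τ ∧ v (τ + 2 * Real.pi) = c * v τ) (n : ℤ) :
    (ν + n) * cf u (ν + n) = κ * cf v (ν + n) ∧
    (ν + n) * cf v (ν + n) = κ * cf u (ν + n) + l * cf v (ν + n) +
      μ * (cf v (ν + (n - 1 : ℤ)) + cf v (ν + (n + 1 : ℤ))) := by
  have hN : exp (2 * Real.pi * I * (ν + n)) = c := by
    rw [mul_add, exp_add, hν]
    have : 2 * (Real.pi : ℂ) * I * (n : ℂ) = n * (2 * Real.pi * I) := by ring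
    rw [this, exp_int_mul_two_pi_mul_I, mul_one]
  have hu : u (2 * Real.pi) = c * u 0 := by
    have := (hper 0).1
    rwa [zero_add] at this
  have hv : v (2 * Real.pi) = c * v 0 := by
    have := (hper 0).2
    rwa [zero_add] at this
  have h1 := cf_rec h hN hu hv
  have e1 : ν + ((n - 1 : ℤ) : ℂ) = ν + n - 1 := by push_cast; ring
  have e2 : ν + ((n + 1 : ℤ) : ℂ) = ν + n + 1 := by push_cast; ring
  rw [e1, e2]
  exact h1

end main

end Pool.Agent.Lib.MP_557074_an
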