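import Pool.Agent.Lib.MP_557074_an.Defs
import Pool.Agent.Lib.MP_557074_an.ODE

set_option autoImplicit false
open Complex MeasureTheory Filter Topology

namespace Pool.Agent.Lib.MP_557074_an

/-- coefficient of the linear system -/
noncomputable def Lam (l : ℤ) (μ : ℂ) (τ : ℝ) : ℂ := l + μ * (exp (I * τ) + exp (-(I * τ)))

/-- the linear system -/
structure IsLin (l : ℤ) (μ κ : ℂ) (u v : ℝ → ℂ) : Prop where
  du : ∀ τ : ℝ, HasDerivAt u (I * (κ * v τ)) τ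
  dv : ∀ τ : ℝ, HasDerivAt v (I * (κ * u τ + Lam l μ τ * v τ)) τ

lemma continuous_Lam (l : ℤ) (μ : ℂ) : Continuous (Lam l μ) := by
  unfold Lam
  fun_prop

lemma norm_exp_I_mul (τ : ℝ) : ‖exp (I * τ)‖ = 1 := by
  rw [mul_comm]; exact Complex.norm_exp_ofReal_mul_I τ

lemma norm_exp_neg_I_mul (τ : ℝ) : ‖exp (-(I * τ))‖ = 1 := by
  have : -(I * (τ:ℂ)) = ((-τ : ℝ) : ℂ) * I := by push_cast; ring
  rw [this]; exact Complex.norm_exp_ofReal_mul_I (-τ)

lemma norm_Lam_le (l : ℤ) (μ : ℂ) (τ : ℝ) : ‖Lam l μ τ‖ ≤ ‖(l : ℂ)‖ + ‖μ‖ * 2 := by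
  unfold Lam
  refine (norm_add_le _ _).trans ?_
  gcongr
  rw [norm_mul]
  gcongr
  refine (norm_add_le _ _).trans ?_
  rw [norm_exp_I_mul, norm_exp_neg_I_mul]
  norm_num

lemma Lam_periodic (l : ℤ) (μ : ℂ) (τ : ℝ) : Lam l μ (τ + 2 * Real.pi) = Lam l μ τ := by
  unfold Lam
  have h1 : exp (I * ((τ + 2 * Real.pi : ℝ) : ℂ)) = exp (I * τ) := by
    have : I * ((τ + 2 * Real.pi : ℝ) : ℂ) = I * τ + 2 * Real.pi * I := by push_cast; ring
    rw [this, Complex.exp_periodic]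
  have h2 : exp (-(I * ((τ + 2 * Real.pi : ℝ) : ℂ))) = exp (-(I * τ)) := by
    rw [exp_neg, h1, ← exp_neg]
  rw [h1, h2]

/-- the coefficient matrix -/
noncomputable def Amat (l : ℤ) (μ κ : ℂ) (τ : ℝ) : ℂ × ℂ →L[ℂ] ℂ × ℂ :=
  (I * κ) • ((ContinuousLinearMap.snd ℂ ℂ ℂ).prod (ContinuousLinearMap.fst ℂ ℂ ℂ)) +
    (I * Lam l μ τ) • ((0 : ℂ × ℂ →L[ℂ] ℂ).prod (ContinuousLinearMap.snd ℂ ℂ ℂ))

lemma Amat_apply (l : ℤ) (μ κ : ℂ) (τ : ℝ) (x : ℂ × ℂ) :
    Amat l μ κ τ x = (I * (κ * x.2), I * (κ * x.1 + Lam l μ τ * x.2)) := by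
  unfold Amat
  ext
  · simp; ring
  · simp; ring

theorem lin_exist (l : ℤ) (μ κ u0 v0 : ℂ) :
    ∃ u v : ℝ → ℂ, IsLin l μ κ u v ∧ u 0 = u0 ∧ v 0 = v0 := by
  have hA : Continuous (Amat l μ κ) := by
    unfold Amat
    have := continuous_Lam l μ
    fun_prop
  have hC : ∀ t, ‖Amat l μ κ t‖ ≤
      ‖(I * κ) • ((ContinuousLinearMap.snd ℂ ℂ ℂ).prod (ContinuousLinearMap.fst ℂ ℂ ℂ))‖ +
      (‖(l : ℂ)‖ + ‖μ‖ * 2) * ‖((0 : ℂ × ℂ →L[ℂ] ℂ).prod (ContinuousLinearMap.snd ℂ ℂ ℂ))‖ := by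
    intro t
    unfold Amat
    refine (norm_add_le _ _).trans ?_
    gcongr
    rw [norm_smul, norm_mul, norm_I, one_mul]
    gcongr
    exact norm_Lam_le l μ t
  obtain ⟨x, hx0, hx⟩ := lin_exists hA hC (u0, v0)
  refine ⟨fun t => (x t).1, fun t => (x t).2, ⟨fun τ => ?_, fun τ => ?_⟩, ?_, ?_⟩
  · have h := (ContinuousLinearMap.fst ℝ ℂ ℂ).hasFDerivAt.comp_hasDerivAt τ (hx τ)
    rw [Amat_apply] at h
    exact h
  · have h := (ContinuousLinearMap.snd ℝ ℂ ℂ).hasFDerivAt.comp_hasDerivAt τ (hx τ)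
    rw [Amat_apply] at h
    exact h
  · simp only [hx0]
  · simp only [hx0]

lemma IsLin.comb {l : ℤ} {μ κ : ℂ} {u v u' v' : ℝ → ℂ} (h : IsLin l μ κ u v)
    (h' : IsLin l μ κ u' v') (α β : ℂ) :
    IsLin l μ κ (fun τ => α * u τ + β * u' τ) (fun τ => α * v τ + β * v' τ) := by
  constructor
  · intro τ
    refine (((h.du τ).const_mul α).fun_add ((h'.du τ).const_mul β)).congr_deriv ?_
    ring
  · intro τ
    refine (((h.dv τ).const_mul α).fun_add ((h'.dv τ).const_mul β)).congr_deriv ?_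
    ring

lemma IsLin.shift {l : ℤ} {μ κ : ℂ} {u v : ℝ → ℂ} (h : IsLin l μ κ u v) :
    IsLin l μ κ (fun τ => u (τ + 2 * Real.pi)) (fun τ => v (τ + 2 * Real.pi)) := by
  constructor
  · intro τ
    exact (h.du (τ + 2 * Real.pi)).comp_add_const τ (2 * Real.pi)
  · intro τ
    have h1 := (h.dv (τ + 2 * Real.pi)).comp_add_const τ (2 * Real.pi)
    rw [Lam_periodic] at h1
    exact h1

/-- primitive of `Lam` -/
noncomputable def Theta (l : ℤ) (μ : ℂ) (τ : ℝ) : ℂ :=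
  I * (l * τ) + μ * (exp (I * τ) - exp (-(I * τ)))

lemma hasDerivAt_ofReal (τ : ℝ) : HasDerivAt (fun τ : ℝ => (τ : ℂ)) 1 τ :=
  (hasDerivAt_id τ).ofReal_comp

lemma hasDerivAt_Theta (l : ℤ) (μ : ℂ) (τ : ℝ) :
    HasDerivAt (Theta l μ) (I * Lam l μ τ) τ := by
  have h0 := hasDerivAt_ofReal τ
  have h1 : HasDerivAt (fun τ : ℝ => I * ((l : ℂ) * τ)) (I * ((l : ℂ) * 1)) τ :=
    (h0.const_mul (l : ℂ)).const_mul I
  have h2 : HasDerivAt (fun τ : ℝ => exp (I * τ)) (exp (I * τ) * (I * 1)) τ :=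
    (h0.const_mul I).cexp
  have h3 : HasDerivAt (fun τ : ℝ => exp (-(I * τ))) (exp (-(I * τ)) * (-(I * 1))) τ :=
    (h0.const_mul I).fun_neg.cexp
  refine (h1.fun_add ((h2.fun_sub h3).const_mul μ)).congr_deriv ?_
  unfold Lam
  ring

/-- The Wronskian is a constant multiple of an exponential. -/
lemma wronskian {l : ℤ} {μ κ : ℂ} {u v u' v' : ℝ → ℂ} (h : IsLin l μ κ u v)
    (h' : IsLin l μ κ u' v') (τ : ℝ) :
    u τ * v' τ - v τ * u' τ =
      (u 0 * v' 0 - v 0 * u' 0) * exp (Theta l μ τ - Theta l μ 0) := by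
  have hd : ∀ t : ℝ, HasDerivAt (fun t => (u t * v' t - v t * u' t) * exp (-(Theta l μ t))) 0 t := by
    intro t
    have h1 := ((h.du t).fun_mul (h'.dv t)).fun_sub ((h.dv t).fun_mul (h'.du t))
    have h2 := (hasDerivAt_Theta l μ t).fun_neg.cexp
    refine (h1.fun_mul h2).congr_deriv ?_
    ring
  have hc := is_const_of_deriv_eq_zero (f := fun t => (u t * v' t - v t * u' t) *
    exp (-(Theta l μ t))) (fun t => (hd t).differentiableAt) (fun t => (hd t).deriv) τ 0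
  rw [exp_neg, exp_neg] at hc
  rw [exp_sub]
  have e1 := exp_ne_zero (Theta l μ τ)
  have e2 := exp_ne_zero (Theta l μ 0)
  field_simp at hc ⊢
  linear_combination hc

/-- uniqueness -/
lemma lin_zero {l : ℤ} {μ κ : ℂ} {u v : ℝ → ℂ} (h : IsLin l μ κ u v) (hu : u 0 = 0)
    (hv : v 0 = 0) (τ : ℝ) : u τ = 0 ∧ v τ = 0 := by
  obtain ⟨u1, v1, h1, a1, a2⟩ := lin_exist l μ κ 1 0
  obtain ⟨u2, v2, h2, b1, b2⟩ := lin_exist l μ κ 0 1
  have w12 := wronskian h1 h2 τ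
  have w1 := wronskian h h1 τ
  have w2 := wronskian h h2 τ
  rw [hu, hv] at w1 w2
  rw [a1, a2, b1, b2] at w12
  simp only [zero_mul, sub_zero, sub_self, mul_one, one_mul, mul_zero] at w1 w2 w12
  have hne : u1 τ * v2 τ - v1 τ * u2 τ ≠ 0 := by
    rw [w12]; exact exp_ne_zero _
  constructor
  · apply (mul_eq_zero.mp (?_ : u τ * (u1 τ * v2 τ - v1 τ * u2 τ) = 0)).resolve_right hne
    linear_combination u1 τ * w2 - u2 τ * w1
  · apply (mul_eq_zero.mp (?_ : v τ * (u1 τ * v2 τ - v1 τ * u2 τ) = 0)).resolve_right hne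
    linear_combination v1 τ * w2 - v2 τ * w1

/-- solutions of the linear system give solutions of the Riccati equation -/
lemma IsLin.isSolution {l : ℤ} {μ ω : ℂ} {u v : ℝ → ℂ}
    (h : IsLin l μ (1 / (2 * I * ω)) u v) (hne : u 0 ≠ 0 ∨ v 0 ≠ 0) : IsSolution l μ ω u v := by
  refine ⟨fun τ => (h.du τ).differentiableAt, fun τ => (h.dv τ).differentiableAt, ?_, ?_⟩
  · intro τ
    by_contra hcon
    have hcon' : u τ = 0 ∧ v τ = 0 := by
      constructor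
      · by_contra h1; exact hcon (Or.inl h1)
      · by_contra h1; exact hcon (Or.inr h1)
    rcases hne with h0 | h0
    · obtain ⟨u', v', h', a1, a2⟩ := lin_exist l μ (1 / (2 * I * ω)) 0 1
      have w := wronskian h h' τ
      rw [hcon'.1, hcon'.2, a1, a2] at w
      simp only [zero_mul, sub_self, mul_one, mul_zero, sub_zero] at w
      exact (mul_ne_zero h0 (exp_ne_zero _)) w.symm
    · obtain ⟨u', v', h', a1, a2⟩ := lin_exist l μ (1 / (2 * I * ω)) 1 0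
      have w := wronskian h h' τ
      rw [hcon'.1, hcon'.2, a1, a2] at w
      simp only [zero_mul, sub_self, mul_one, mul_zero, zero_sub] at w
      exact (mul_ne_zero (neg_ne_zero.mpr h0) (exp_ne_zero _)) w.symm
  · intro τ
    rw [(h.du τ).deriv, (h.dv τ).deriv]
    unfold Lam
    rw [← exp_neg]
    ring

/-- If the monodromy is the identity then all solutions of the linear system have a common
multiplier. -/
theorem exists_multiplier {l : ℤ} {μ ω : ℂ} (hM : MonodromyIsId l μ ω) :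
    ∃ c : ℂ, c ≠ 0 ∧ ∀ u v : ℝ → ℂ, IsLin l μ (1 / (2 * I * ω)) u v →
      ∀ τ, u (τ + 2 * Real.pi) = c * u τ ∧ v (τ + 2 * Real.pi) = c * v τ := by
  obtain ⟨κ, hκ⟩ : ∃ κ, κ = 1 / (2 * I * ω) := ⟨_, rfl⟩
  obtain ⟨u1, v1, h1, a1, a2⟩ := lin_exist l μ κ 1 0
  obtain ⟨u2, v2, h2, b1, b2⟩ := lin_exist l μ κ 0 1
  have h12 := h1.comb h2 1 1
  have m1 := hM u1 v1 ((hκ ▸ h1).isSolution (Or.inl (by rw [a1]; exact one_ne_zero)))
  have m2 := hM u2 v2 ((hκ ▸ h2).isSolution (Or.inr (by rw [b2]; exact one_ne_zero)))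
  have m12 := hM _ _ ((hκ ▸ h12).isSolution (Or.inl (by
    simp only [a1, b1]; norm_num)))
  rw [a1, a2] at m1
  rw [b1, b2] at m2
  simp only [a1, a2, b1, b2] at m12
  simp only [mul_one, mul_zero, one_mul, add_zero, zero_add] at m1 m2 m12
  -- m1 : v1 (2π) = 0, m2 : 0 = u2 (2π), m12 : v1 + v2 = u1 + u2
  have hc : v2 (2 * Real.pi) = u1 (2 * Real.pi) := by
    rw [m1, ← m2] at m12
    simpa using m12
  have w := wronskian h1 h2 (2 * Real.pi)
  rw [m1, ← m2, a1, a2, b1, b2, hc] at w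
  simp only [mul_zero, sub_zero, mul_one, one_mul] at w
  have hc0 : u1 (2 * Real.pi) ≠ 0 := by
    intro h0
    rw [h0] at w
    exact exp_ne_zero _ (by rw [← w]; ring)
  have key : ∀ u v : ℝ → ℂ, IsLin l μ κ u v → u (2 * Real.pi) = u1 (2 * Real.pi) * u 0 →
      v (2 * Real.pi) = u1 (2 * Real.pi) * v 0 →
      ∀ τ, u (τ + 2 * Real.pi) = u1 (2 * Real.pi) * u τ ∧
        v (τ + 2 * Real.pi) = u1 (2 * Real.pi) * v τ := by
    intro u v h e1 e2 τ
    have h3 := h.shift.comb h 1 (-(u1 (2 * Real.pi)))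
    have h4 := lin_zero h3 (by simp only [zero_add]; rw [e1]; ring)
      (by simp only [zero_add]; rw [e2]; ring) τ
    constructor
    · linear_combination h4.1
    · linear_combination h4.2
  have k1 := key u1 v1 h1 (by rw [a1, mul_one]) (by rw [m1, a2, mul_zero])
  have k2 := key u2 v2 h2 (by rw [← m2, b1, mul_zero]) (by rw [hc, b2, mul_one])
  refine ⟨u1 (2 * Real.pi), hc0, fun u v h τ => ?_⟩
  rw [← hκ] at h
  -- `(u, v)` is a combination of the two basic solutions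
  have h5 : ∀ s, u s = u 0 * u1 s + v 0 * u2 s ∧ v s = u 0 * v1 s + v 0 * v2 s := by
    intro s
    have h6 := (h.comb (h1.comb h2 (u 0) (v 0)) 1 (-1))
    have h7 := lin_zero h6 (by simp only [a1, b1]; ring) (by simp only [a2, b2]; ring) s
    constructor
    · linear_combination h7.1
    · linear_combination h7.2
  rw [(h5 (τ + 2 * Real.pi)).1, (h5 (τ + 2 * Real.pi)).2, (h5 τ).1, (h5 τ).2, (k1 τ).1, (k1 τ).2,
    (k2 τ).1, (k2 τ).2]
  constructor <;> ring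

end Pool.Agent.Lib.MP_557074_an
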